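import Pool.Agent.Lib.MP_aa40d3_nt.MR.ADefs

/-! Rank two, one movable point: definitions. -/

open Polynomial Matrix

namespace Pool.Agent.GR

variable {n r : ℕ}

/-- `b` follows `a` immediately in the order `ρ`. -/
def Adj (ρ : Fin n → ℝ) (a b : Fin n) : Prop := ρ a < ρ b ∧ ∀ c, ρ a < ρ c → ρ b ≤ ρ c

/-- The hypothesis on the loops around two neighbours one of which is movable. -/
def LoopsP (Mov : Finset (Fin n)) (ρ : Fin n → ℝ) (g : Fin n → GLr r) (ε : Fin n → Fin r → ℂ) :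
    Prop :=
  ∀ μ, ValidM Mov μ ρ → ∀ a b, Adj (rhoL μ ρ) a b → (a ∈ Mov ∨ b ∈ Mov) →
    OrrM ε {a, b} (mvTL μ ρ g a * mvTL μ ρ g b).val

/-- The `z`-fold full twist of `o` about `j`, up to conjugation. -/
noncomputable def Tw {G : Type} [Group G] (ρ : Fin n → ℝ) (o j : Fin n) (z : ℤ) (c : Fin n → G) :
    Fin n → G := fun p =>
  if p = o ∨ p = j then c p
  else if ρ p < ρ j then (c j * c o) ^ z * c p * ((c j * c o) ^ z)⁻¹
  else (c o * c j) ^ z * c p * ((c o * c j) ^ z)⁻¹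

/-- A class of tuples closed under twists and conjugation. -/
structure Cl2 (ρ : Fin n → ℝ) (o : Fin n) (g : Fin n → GLr r) (ε : Fin n → Fin r → ℂ)
    (𝒞 : Set (Fin n → GLr r)) : Prop where
  tw : ∀ c ∈ 𝒞, ∀ j, j ≠ o → ∀ z : ℤ, Tw ρ o j z c ∈ 𝒞
  cj : ∀ c ∈ 𝒞, ∀ u : GLr r, (fun i => u * c i * u⁻¹) ∈ 𝒞
  orr : ∀ c ∈ 𝒞, ∀ j, j ≠ o → OrrM ε {o, j} (c o * c j).val
  conj : ∀ c ∈ 𝒞, ∀ j, IsConj (g j) (c j)

/-- The trace of a commutator, minus two. -/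
def kp (u v x : ℂ) : ℂ := x ^ 2 + u ^ 2 + v ^ 2 - u * v * x - 4

/-- The Fricke cubic. -/
def fr (a b e w x y z : ℂ) : ℂ :=
  x ^ 2 + y ^ 2 + z ^ 2 + x * y * z - (a * b + e * w) * x - (a * e + b * w) * y -
    (b * e + a * w) * z - (4 - a ^ 2 - b ^ 2 - e ^ 2 - w ^ 2 - a * b * e * w)

/-- A subset of the Fricke cubic closed under the three flips. -/
structure Om (a b e w : ℂ) (Ω : Set (ℂ × ℂ × ℂ)) : Prop where
  cub : ∀ x y z, (x, y, z) ∈ Ω → fr a b e w x y z = 0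
  fx : ∀ x y z, (x, y, z) ∈ Ω → (a * b + e * w - y * z - x, y, z) ∈ Ω
  fy : ∀ x y z, (x, y, z) ∈ Ω → (x, a * e + b * w - x * z - y, z) ∈ Ω
  fz : ∀ x y z, (x, y, z) ∈ Ω → (x, y, b * e + a * w - x * y - z) ∈ Ω

/-- Real and of absolute value at most two. -/
def Rl (x : ℂ) : Prop := x.im = 0 ∧ x.re ^ 2 ≤ 4

/-- A root of unity plus its inverse. -/
def Cy (x : ℂ) : Prop := ∃ ω : ℂ, IsOfFinOrder ω ∧ x = ω + ω⁻¹

/-- Antidiagonal. -/
def AD (x : Matrix (Fin 2) (Fin 2) ℂ) : Prop := x 0 0 = 0 ∧ x 1 1 = 0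

theorem fr_x (a b e w x y z : ℂ) : (4 - x ^ 2) * fr a b e w x y z =
    (2 * y + x * z - (a * e + b * w)) ^ 2 + (2 * z + x * y - (b * e + a * w)) ^ 2 -
      x * (2 * y + x * z - (a * e + b * w)) * (2 * z + x * y - (b * e + a * w)) -
        kp a b x * kp e w x := by
  unfold fr kp
  ring

theorem fr_y (a b e w x y z : ℂ) : (4 - y ^ 2) * fr a b e w x y z =
    (2 * x + y * z - (a * b + e * w)) ^ 2 + (2 * z + x * y - (b * e + a * w)) ^ 2 -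
      y * (2 * x + y * z - (a * b + e * w)) * (2 * z + x * y - (b * e + a * w)) -
        kp a e y * kp b w y := by
  unfold fr kp
  ring

theorem fr_z (a b e w x y z : ℂ) : (4 - z ^ 2) * fr a b e w x y z =
    (2 * x + y * z - (a * b + e * w)) ^ 2 + (2 * y + x * z - (a * e + b * w)) ^ 2 -
      z * (2 * x + y * z - (a * b + e * w)) * (2 * y + x * z - (a * e + b * w)) -
        kp b e z * kp a w z := by
  unfold fr kp
  ring

theorem kp_sq (u v x : ℂ) : 4 * kp u v x = (2 * x - u * v) ^ 2 - (4 - u ^ 2) * (4 - v ^ 2) := by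
  unfold kp
  ring

theorem kp_sq' (u v x : ℂ) : 4 * kp u v x = (2 * v - u * x) ^ 2 - (4 - u ^ 2) * (4 - x ^ 2) := by
  unfold kp
  ring

theorem finOrd_inv {ω : ℂ} (h : IsOfFinOrder ω) : IsOfFinOrder ω⁻¹ := by
  obtain ⟨m, h2, h3⟩ := isOfFinOrder_iff_pow_eq_one.1 h
  exact isOfFinOrder_iff_pow_eq_one.2 ⟨m, h2, by rw [inv_pow, h3, inv_one]⟩

theorem Cy.map {x : ℂ} (h : Cy x) (τ : ℂ →+* ℂ) : Cy (τ x) := by
  obtain ⟨ω, h1, rfl⟩ := h
  exact ⟨τ ω, τ.toMonoidHom.isOfFinOrder h1, by rw [map_add, map_inv₀]⟩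

theorem Cy.int {x : ℂ} (h : Cy x) : IsIntegral ℤ x := by
  obtain ⟨ω, h1, rfl⟩ := h
  exact (gint_finOrder h1).add (gint_finOrder (finOrd_inv h1))

theorem Cy.rl {x : ℂ} (h : Cy x) : Rl x := by
  obtain ⟨ω, h1, rfl⟩ := h
  have h2 := h1.norm_eq_one
  rw [Complex.inv_eq_conj h2]
  have h3 := Complex.abs_re_le_norm ω
  rw [h2, abs_le] at h3
  refine ⟨by simp, ?_⟩
  simp only [Complex.add_re, Complex.conj_re]
  nlinarith [h3.1, h3.2]

theorem Om.map {a b e w : ℂ} {Ω : Set (ℂ × ℂ × ℂ)} (h : Om a b e w Ω) (τ : ℂ →+* ℂ) :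
    Om (τ a) (τ b) (τ e) (τ w) ((fun P => (τ P.1, τ P.2.1, τ P.2.2)) '' Ω) := by
  refine ⟨?_, ?_, ?_, ?_⟩ <;> rintro _ _ _ ⟨⟨x, y, z⟩, hP, hq⟩ <;>
    simp only [Prod.mk.injEq] at hq <;> obtain ⟨rfl, rfl, rfl⟩ := hq
  · have := congrArg τ (h.cub x y z hP)
    simpa [fr, map_ofNat] using this
  · exact ⟨_, h.fx x y z hP, by simp⟩
  · exact ⟨_, h.fy x y z hP, by simp⟩
  · exact ⟨_, h.fz x y z hP, by simp⟩

end Pool.Agent.GR
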