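import Pool.Agent.Lib.MP_aa40d3_nt.MR.Arc3
import Pool.Agent.Lib.MP_aa40d3_nt.R2.Defs

/-! The loop around two neighbours. -/

open Polynomial Matrix Set Filter Topology
open scoped Matrix.Norms.Operator

namespace Pool.Agent.GR

variable {n r : ℕ}

/-- With `m` between the two abscissae, `vt a * vt b = (Vp x1)⁻¹ * Vp m * ((Vp m)⁻¹ * Vp x2)`
(`vt_eq`); continue as in `vt_eq_RL` (`GR/Rect.lean`). -/
theorem vt_pair {G : Type*} [Group G] {T : ℝ × ℝ → ℝ × ℝ → G} {pts : Fin n → ℝ × ℝ} {H : ℝ}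
    (hT : RectT T pts) (hb : InBox pts H) {a b : Fin n} (hab : (pts a).1 < (pts b).1)
    {x1 x2 y1 y2 : ℝ} (h3 : -H ≤ y1) (h5 : y2 ≤ H) (ha : pts a ∈ Ioo x1 x2 ×ˢ Ioo y1 y2)
    (hb' : pts b ∈ Ioo x1 x2 ×ˢ Ioo y1 y2)
    (hout : ∀ c, c ≠ a → c ≠ b → (pts c).1 ∉ Icc x1 x2) :
    IsConj (vt T pts H a * vt T pts H b) (RL T x1 x2 y1 y2) := by
  have hH : 0 ≤ H := (abs_nonneg _).trans (hb a).1.le
  obtain ⟨m, m1, m2⟩ := exists_between hab
  have v1 : ValidAt (fun j => (pts j).1) a x1 m := ⟨ha.1.1, m1, fun j hj k => by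
    by_cases e : j = b
    · exact m2.not_ge (e ▸ k.2)
    · exact hout j hj e ⟨k.1, k.2.trans (m2.trans hb'.1.2).le⟩⟩
  have v2 : ValidAt (fun j => (pts j).1) b m x2 := ⟨m2, hb'.1.2, fun j hj k => by
    by_cases e : j = a
    · exact m1.not_ge (e ▸ k.1)
    · exact hout j e hj ⟨(ha.1.1.trans m1).le.trans k.1, k.2⟩⟩
  have x12 : x1 ≤ x2 := (ha.1.1.trans ha.1.2).le
  have hin : ∀ j, (pts j).1 ∈ Icc x1 x2 → pts j ∈ Ioo x1 x2 ×ˢ Ioo y1 y2 := fun j hj => by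
    by_cases e : j = a
    · exact e ▸ ha
    · by_cases e' : j = b
      · exact e' ▸ hb'
      · exact absurd hj (hout j e e')
  rw [vt_eq hT hb v1, vt_eq hT hb v2, mul_assoc, mul_inv_cancel_left,
    Vp_inv_mul hT hb hH fun j e => (hin j ⟨e.ge, e.le.trans x12⟩).1.1.ne' e,
    RL_nest hT le_rfl x12 le_rfl h3 (ha.2.1.trans ha.2.2).le h5 fun j hj => hin j hj.1, isConj_iff]
  refine ⟨T (x1, -H) (x1, y1) * T (x1, -H) (x1, -H) * T (-H, -H) (x1, -H), ?_⟩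
  group

theorem arc4_mem {m : ℕ} {ρ : Fin n → ℝ} {H : ℝ} {l : List (Fin n)} {i₀ : Fin n} (hi : i₀ ∈ l)
    {w : Fin n ⊕ Fin m → ℂ} (hw : w ∈ Cham m ρ H) {lo hi' : ℝ}
    (hin : ∀ i ∈ l, lo ≤ (w (Sum.inl i)).re ∧ (w (Sum.inl i)).re ≤ hi')
    (hout : ∀ i, i ∉ l → (w (Sum.inl i)).re < lo ∨ hi' < (w (Sum.inl i)).re) {s : ℝ} (h0 : 0 < s)
    (h1 : s ≤ 1) :
    wstar l.toFinset (w (Sum.inl i₀)) w + (s : ℂ) • (w - wstar l.toFinset (w (Sum.inl i₀)) w) ∈
      Cham m ρ H := by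
  have hb := hw.1
  have hb0 := hb i₀
  have hi0 := hin i₀ hi
  simp only [pp, abs_lt] at hb0
  refine ⟨fun i => ?_, fun c d hcd => ?_⟩
  · have hbi := hb i
    simp only [pp, abs_lt] at hbi ⊢
    by_cases h : i ∈ l
    · rw [arc_in h]
      simp only [Complex.add_re, Complex.add_im, Complex.re_ofReal_mul, Complex.im_ofReal_mul,
        Complex.sub_re, Complex.sub_im]
      refine ⟨⟨?_, ?_⟩, ?_, ?_⟩ <;> nlinarith [hbi.1.1, hbi.1.2, hbi.2.1, hbi.2.2, hb0.1.1,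
        hb0.1.2, hb0.2.1, hb0.2.2]
    · rw [arc_out h]
      exact hbi
  · have hlt := hw.2 c d hcd
    by_cases hc : c ∈ l <;> by_cases hd : d ∈ l
    · rw [arc_in hc, arc_in hd]
      simp only [Complex.add_re, Complex.re_ofReal_mul, Complex.sub_re]
      nlinarith
    · rw [arc_in hc, arc_out hd]
      simp only [Complex.add_re, Complex.re_ofReal_mul, Complex.sub_re]
      have h2 := hin c hc
      have h3 := (hout d hd).resolve_left (by linarith [h2.1])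
      nlinarith [mul_le_mul_of_nonneg_left h2.2 h0.le,
        mul_le_mul_of_nonneg_left hi0.2 (sub_nonneg.2 h1)]
    · rw [arc_out hc, arc_in hd]
      simp only [Complex.add_re, Complex.re_ofReal_mul, Complex.sub_re]
      have h2 := hin d hd
      have h3 := (hout c hc).resolve_right (by linarith [h2.2])
      nlinarith [mul_le_mul_of_nonneg_left h2.1 h0.le,
        mul_le_mul_of_nonneg_left hi0.1 (sub_nonneg.2 h1)]
    · rwa [arc_out hc, arc_out hd]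

variable [NeZero r] {Mov : Finset (Fin n)}

theorem arc4_core (M : Model3 n r Mov) {ρ : Fin n → ℝ} (hρ : Function.Injective ρ) {H : ℝ}
    {p q i₀ : Fin n} (hab : Adj ρ p q) {l : List (Fin n)} (hl : ∀ i, i ∈ l ↔ i = p ∨ i = q)
    (hi : i₀ ∈ l) (hM : ∀ i ∈ l, i ∈ Mov ∨ i = i₀) {w : Fin n ⊕ Fin M.m → ℂ}
    (hw : w ∈ Cham M.m ρ H) (hZ : ∀ z ∈ M.Z, ev1 w z = 0) (hG : ev1 w M.G ≠ 0) {θ : ℂ}
    (hF : ev2 w θ M.F3 = 0) : OrrM M.toModel2.ε l.toFinset
      (mon2 M.toModel2 H (w, θ) p * mon2 M.toModel2 H (w, θ) q).val := by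
  classical
  have hpq := hw.2 p q hab.1
  have hin : ∀ i ∈ l, (w (Sum.inl p)).re ≤ (w (Sum.inl i)).re ∧
      (w (Sum.inl i)).re ≤ (w (Sum.inl q)).re := fun i h => by
    rcases (hl i).1 h with rfl | rfl
    exacts [⟨le_rfl, hpq.le⟩, ⟨hpq.le, le_rfl⟩]
  have hoo : ∀ i, i ∉ l → (w (Sum.inl i)).re < (w (Sum.inl p)).re ∨
      (w (Sum.inl q)).re < (w (Sum.inl i)).re := fun i h => by
    rw [hl, not_or] at h
    rcases lt_or_gt_of_ne (hρ.ne h.1) with e | e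
    · exact Or.inl (hw.2 _ _ e)
    · exact Or.inr (hw.2 _ _ ((hab.2 i e).lt_of_ne (hρ.ne h.2).symm))
  obtain ⟨a, ha⟩ : ∃ a, a = w (Sum.inl i₀) := ⟨_, rfl⟩
  obtain ⟨w0, hw0⟩ : ∃ w0, w0 = wstar l.toFinset a w := ⟨_, rfl⟩
  have hsl : Sl Mov w0 w := by
    rw [hw0]
    rintro (i | j) hs
    · by_cases h1 : i ∈ l.toFinset
      · rw [(hM i (List.mem_toFinset.1 h1)).resolve_left fun h => hs i h rfl]
        simp [wstar, ha]
      · simp only [wstar, h1, if_false]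
    · rfl
  have hFm : (M.F3.map (lineHom w0 w)).Monic := M.monic3.map _
  have hG' : lineHom w0 w M.G ≠ 0 := by
    intro h
    have h1 := eval_lineHom w0 w 1 M.G
    rw [h, eval_zero, one_smul, add_sub_cancel] at h1
    exact hG h1.symm
  have hsep : ∀ u θ, (lineHom w0 w M.G).eval u ≠ 0 →
      (fib (M.F3.map (lineHom w0 w)) u).eval θ = 0 →
      (derivative (fib (M.F3.map (lineHom w0 w)) u)).eval θ ≠ 0 := by
    intro u θ h1 h2
    rw [eval_lineHom] at h1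
    rw [fib_lineHom, ← ev2_eq_eval] at h2
    rw [fib_lineHom, derivative_map, ← ev2_eq_eval]
    exact M.sep3 ℂ _ _ (M.on_sl (hsl.line u) hZ) h2 h1
  obtain ⟨e, he⟩ : ∃ e, e = (M.F3.map (lineHom w0 w)).natDegree.factorial *
    (2 * (r * r * (n + 1)) + 4) := ⟨_, rfl⟩
  have he1 : 2 * (r * r * (n + 1)) + 4 ≤ e := by
    rw [he]
    exact Nat.le_mul_of_pos_left _ (Nat.factorial_pos _)
  have he0 : 0 < e := by omega
  obtain ⟨ε, hε, θs, hθa, hθs⟩ := exists_puiseux _ hFm _ hG' hsep he0 (he ▸ dvd_mul_right _ _)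
  have hout : ∀ j, j ∉ l → 0 < |(w (Sum.inl j)).re - a.re| := fun j hj => by
    have h1 := hin i₀ hi
    rw [abs_pos, sub_ne_zero, ha]
    rcases hoo j hj with h | h
    exacts [(h.trans_le h1.1).ne, (h1.2.trans_lt h).ne']
  have hne : ∀ j, j ∉ l.toFinset → w (Sum.inl j) ≠ a := by
    intro j hj h
    have h1 := hout j (by simpa using hj)
    simp [h] at h1
  have hbr : ∀ j, ∃ ϱ : ℕ, 0 < ϱ ∧ ϱ < e ∧ ∀ᶠ z in 𝓝[≠] (0 : ℂ), OrrM M.toModel2.ε l.toFinset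
      (sqLoop (fun i => (w0 + z ^ e • (w - w0)) (Sum.inl i))
        (M.toModel2.mA (w0 + z ^ e • (w - w0)) (θs j z) : Fin n → Mat r) a (z ^ ϱ)) := by
    intro j
    rw [hw0]
    refine arc_branch3 M l.toFinset a hne (fun i hi => (hM i (List.mem_toFinset.1 hi)).imp_right
      fun h => by rw [h, ha]) hZ hG he1 (hθa j) ?_
    filter_upwards [self_mem_nhdsWithin,
      mem_nhdsWithin_of_mem_nhds (Metric.ball_mem_nhds (0 : ℂ) hε)] with z hz hz'
    rw [← hw0, ev2_eq_eval, ← fib_lineHom, hθs z hz' hz, eval_prod]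
    exact Finset.prod_eq_zero (Finset.mem_univ j) (by simp)
  choose ϱ hϱ0 hϱe hϱ using hbr
  have hbox := hw.1 i₀
  simp only [pp, abs_lt, ← ha] at hbox
  have htend : Tendsto (fun x : ℝ => (x : ℂ)) (𝓝[>] 0) (𝓝[≠] 0) := by
    refine tendsto_nhdsWithin_iff.2 ⟨?_, ?_⟩
    · have := (Complex.continuous_ofReal.tendsto 0).mono_left (nhdsWithin_le_nhds (s := Ioi 0))
      simpa using this
    · filter_upwards [self_mem_nhdsWithin] with x hx
      exact Complex.ofReal_ne_zero.2 (ne_of_gt hx)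
  have hsmall : ∀ c d : ℝ, 0 < d → ∀ᶠ x : ℝ in 𝓝[>] 0, x * c < d := by
    intro c d hd
    refine Eventually.filter_mono nhdsWithin_le_nhds ?_
    have : ContinuousAt (fun x : ℝ => x * c) 0 := by fun_prop
    exact this.eventually_lt continuousAt_const (by simpa using hd)
  have hev : ∀ᶠ x : ℝ in 𝓝[>] 0, (∀ j, OrrM M.toModel2.ε l.toFinset
      (sqLoop (fun i => (w0 + (x : ℂ) ^ e • (w - w0)) (Sum.inl i))
        (M.toModel2.mA (w0 + (x : ℂ) ^ e • (w - w0)) (θs j x) : Fin n → Mat r) a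
          ((x : ℂ) ^ ϱ j))) ∧ x * 1 < 1 ∧ x * 1 < ε ∧
      x * 1 < a.im + H ∧ x * 1 < H - a.im ∧ (∀ i, x * ‖w (Sum.inl i) - a‖ < 1) ∧
      ∀ i, i ∉ l → x * 1 < |(w (Sum.inl i)).re - a.re| := by
    refine (htend.eventually (eventually_all.2 hϱ)).and ((hsmall _ _ one_pos).and
      ((hsmall _ _ hε).and
      ((hsmall _ _ (by linarith [hbox.2.1])).and ((hsmall _ _ (by linarith [hbox.2.2])).and
      ((eventually_all.2 fun i => hsmall _ _ one_pos).and (eventually_all.2 fun i => ?_))))))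
    by_cases h : i ∈ l
    · exact Eventually.of_forall fun x hx => absurd h hx
    · filter_upwards [hsmall 1 _ (hout i h)] with x hx _ using hx
  obtain ⟨δ, hδ, hδ'⟩ := mem_nhdsGT_iff_exists_Ioo_subset.1 hev
  have hδ0 : 0 < δ := hδ
  refine orrM_cont3 M (isOpen_Cham ρ H) (convex_Cham ρ H)
    (fun y => mon2 M.toModel2 H y p * mon2 M.toModel2 H y q)
    (fun w' hw' hG' θ' => (diffU_mon2 M.toModel2 hρ hw' hG' θ' p).mul
      (diffU_mon2 M.toModel2 hρ hw' hG' θ' q)) M.toModel2.ε l.toFinset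
    (w0 := w0) hsl hw hZ hG (pow_pos hδ0 e) (fun s hs => ?_) hF
  obtain ⟨x, hx0, hxs⟩ : ∃ x : ℝ, 0 < x ∧ x ^ e = s :=
    ⟨s ^ ((e : ℝ)⁻¹), Real.rpow_pos_of_pos hs.1 _, Real.rpow_inv_natCast_pow hs.1.le he0.ne'⟩
  have hxδ : x < δ := lt_of_pow_lt_pow_left₀ e hδ0.le (hxs ▸ hs.2)
  obtain ⟨h1, h2, h3, h5, h6, h7, h8⟩ := hδ' ⟨hx0, hxδ⟩
  rw [mul_one] at h2 h3 h5 h6
  have hs1 : s ≤ 1 := hxs ▸ pow_le_one₀ hx0.le h2.le
  have hmem : w0 + (s : ℂ) • (w - w0) ∈ Cham M.m ρ H := by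
    rw [hw0, ha]
    exact arc4_mem hi hw hin hoo hs.1 hs1
  refine ⟨hmem, fun _ θ' hθ' => ?_⟩
  have hsx : (x : ℂ) ^ e = s := by rw [← hxs, Complex.ofReal_pow]
  obtain ⟨j, rfl⟩ : ∃ j, θ' = θs j x := by
    have hxb : (x : ℂ) ∈ Metric.ball (0 : ℂ) ε := by
      rw [mem_ball_zero_iff, Complex.norm_real, Real.norm_eq_abs, abs_of_pos hx0]
      exact h3
    rw [ev2_eq_eval, ← fib_lineHom, ← hsx, hθs x hxb (Complex.ofReal_ne_zero.2 hx0.ne'),
      eval_prod, Finset.prod_eq_zero_iff] at hθ'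
    obtain ⟨j, -, hj⟩ := hθ'
    exact ⟨j, by simpa [sub_eq_zero] using hj⟩
  have hO := h1 j
  rw [hsx, ← Complex.ofReal_pow, ← RL_TT] at hO
  obtain ⟨y, hy⟩ : ∃ y, y = x ^ ϱ j := ⟨_, rfl⟩
  rw [← hy] at hO
  have hy0 : 0 < y := hy ▸ pow_pos hx0 _
  have hyx : y ≤ x := hy ▸ pow_le_of_le_one hx0.le h2.le (hϱ0 j).ne'
  have hsy : s ≤ y * x := by
    rw [← hxs, hy, ← pow_succ]
    exact pow_le_pow_of_le_one hx0.le h2.le (hϱe j)
  have hbx : ∀ c ∈ l, pp (fun i => (w0 + (s : ℂ) • (w - w0)) (Sum.inl i)) c ∈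
      Ioo (a.re - y) (a.re + y) ×ˢ Ioo (a.im - y) (a.im + y) := by
    intro c hc
    have hn : s * ‖w (Sum.inl c) - a‖ < y := by
      have h9 := h7 c
      have h10 := norm_nonneg (w (Sum.inl c) - a)
      nlinarith
    have hre := abs_lt.1 (lt_of_le_of_lt (mul_le_mul_of_nonneg_left
      (Complex.abs_re_le_norm (w (Sum.inl c) - a)) hs.1.le) hn |>.trans_le' (by
        rw [abs_mul, abs_of_pos hs.1]) : |s * (w (Sum.inl c) - a).re| < y)
    have him := abs_lt.1 (lt_of_le_of_lt (mul_le_mul_of_nonneg_left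
      (Complex.abs_im_le_norm (w (Sum.inl c) - a)) hs.1.le) hn |>.trans_le' (by
        rw [abs_mul, abs_of_pos hs.1]) : |s * (w (Sum.inl c) - a).im| < y)
    simp only [pp, hw0, arc_in hc, mem_prod, mem_Ioo, Complex.add_re, Complex.add_im,
      Complex.re_ofReal_mul, Complex.im_ofReal_mul]
    refine ⟨⟨?_, ?_⟩, ?_, ?_⟩ <;> linarith [hre.1, hre.2, him.1, him.2]
  refine OrrM.of_isConj (vt_pair (rectT_TT (fun i => (w0 + (s : ℂ) • (w - w0)) (Sum.inl i))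
      (M.toModel2.mA (w0 + (s : ℂ) • (w - w0)) (θs j x))) hmem.1 (hmem.2 p q hab.1)
    (by linarith) (by linarith) (hbx p ((hl p).2 (Or.inl rfl))) (hbx q ((hl q).2 (Or.inr rfl)))
    fun c c1 c2 k => ?_) hO
  have hc : c ∉ l := fun h => ((hl c).1 h).elim c1 c2
  have h9 := h8 c hc
  simp only [pp, hw0, arc_out hc, mem_Icc] at k
  have : |(w (Sum.inl c)).re - a.re| ≤ y := abs_le.2 ⟨by linarith [k.1], by linarith [k.2]⟩
  linarith

/-- As `arc3` with `l = [a, b]`, `I = l.toFinset`. Let `o` be the movable one of `a`, `b` and `j` the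
other one; the centre is `w (inl j)`, only `o` moves, along the segment towards the centre
(`hI` of `arc_branch3`: `o ∈ Mov`, and `w (inl j)` is the centre). The segment stays in the
chamber because `a`, `b` are neighbours; the other points have real part outside the closed
interval between those of `a` and `b`. Use `vt_pair` instead of `prod_vt_conj`. -/
theorem arc4 (M : Model3 n r Mov) {ρ : Fin n → ℝ} (hρ : Function.Injective ρ) {H : ℝ}
    {a b : Fin n} (hab : Adj ρ a b) (hM : a ∈ Mov ∨ b ∈ Mov) {w : Fin n ⊕ Fin M.m → ℂ}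
    (hw : w ∈ Cham M.m ρ H) (hZ : ∀ z ∈ M.Z, ev1 w z = 0) (hG : ev1 w M.G ≠ 0) {θ : ℂ}
    (hF : ev2 w θ M.F3 = 0) :
    OrrM M.toModel2.ε {a, b} (mon2 M.toModel2 H (w, θ) a * mon2 M.toModel2 H (w, θ) b).val := by
  have e : ({a, b} : Finset (Fin n)) = [a, b].toFinset := by simp
  have hl : ∀ i, i ∈ [a, b] ↔ i = a ∨ i = b := by simp
  rw [e]
  rcases hM with h | h
  · exact arc4_core M hρ hab hl (i₀ := b) (by simp)
      (fun i hi => ((hl i).1 hi).imp_left fun k : i = a => k ▸ h) hw hZ hG hF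
  · exact arc4_core M hρ hab hl (i₀ := a) (by simp)
      (fun i hi => ((hl i).1 hi).symm.imp_left fun k : i = b => k ▸ h) hw hZ hG hF

end Pool.Agent.GR
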