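import Pool.Agent.Lib.MP_aa40d3_nt.R2.OmI

/-! Integral traces and finiteness. -/

open Polynomial Matrix

namespace Pool.Agent.GR

variable {n : ℕ}

theorem cliff_rel (X Y : Matrix (Fin 2) (Fin 2) ℂ) : X * Y = -(Y * X) + X.trace • Y + Y.trace • X +
    ((X * Y).trace - X.trace * Y.trace) • (1 : Matrix (Fin 2) (Fin 2) ℂ) := by
  ext i j
  fin_cases i <;> fin_cases j <;>
    simp [Matrix.mul_apply, Fin.sum_univ_two, Matrix.trace_fin_two] <;> ring

theorem cliff_sq {X : Matrix (Fin 2) (Fin 2) ℂ} (h : X.det = 1) : X * X = X.trace • X - 1 := by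
  rw [Matrix.det_fin_two] at h
  ext i j
  fin_cases i <;> fin_cases j <;>
    simp [Matrix.mul_apply, Fin.sum_univ_two, Matrix.trace_fin_two] <;>
    first | ring1 | linear_combination (-1 : ℂ) * h

theorem cliff_inv {γ : GLr 2} (h : γ.val.det = 1) : (γ⁻¹).val = γ.val.trace • 1 - γ.val := by
  refine Units.inv_eq_of_mul_eq_one_right ?_
  rw [mul_sub, cliff_sq h, Matrix.mul_smul, mul_one, sub_sub_cancel]

theorem cliff_lat {A M ι : Type} [CommRing A] [Ring M] [Algebra A M] (c : ι → M) (t : ι → A)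
    (s : ι → ι → A)
    (hrel : ∀ i j, c i * c j = -(c j * c i) + t i • c j + t j • c i + s i j • (1 : M))
    (hsq : ∀ i, c i * c i = t i • c i - 1) (l : List ι) :
    ∃ Λ : Submodule A M, Λ.FG ∧ 1 ∈ Λ ∧
      (∀ i, ∀ x ∈ Λ, ∃ y ∈ Λ, ∃ z ∈ Λ, c i * x = y + z * c i) ∧
      ∀ i ∈ l, ∀ x ∈ Λ, c i * x ∈ Λ := by
  induction l with
  | nil =>
    refine ⟨Submodule.span A {1}, Submodule.fg_span_singleton _,
      Submodule.mem_span_singleton_self _, fun i x hx => ⟨0, zero_mem _, x, hx, ?_⟩, by simp⟩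
    obtain ⟨a, rfl⟩ := Submodule.mem_span_singleton.1 hx
    simp
  | cons m l ih =>
    obtain ⟨Λ, h1, h2, h3, h4⟩ := ih
    have k1 : ∀ x ∈ Λ, x ∈ Λ ⊔ Λ.map (LinearMap.mulRight A (c m)) :=
      fun x hx => Submodule.mem_sup_left hx
    have k2 : ∀ x ∈ Λ, x * c m ∈ Λ ⊔ Λ.map (LinearMap.mulRight A (c m)) :=
      fun x hx => Submodule.mem_sup_right ⟨x, hx, rfl⟩
    refine ⟨Λ ⊔ Λ.map (LinearMap.mulRight A (c m)), h1.sup (h1.map _), k1 _ h2, ?_, ?_⟩
    · intro i x hx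
      obtain ⟨y, hy, _, ⟨z, hz, rfl⟩, rfl⟩ := Submodule.mem_sup.1 hx
      obtain ⟨y1, hy1, y2, hy2, e1⟩ := h3 i y hy
      obtain ⟨z1, hz1, z2, hz2, e2⟩ := h3 i z hz
      refine ⟨y1 + z1 * c m + t i • (z2 * c m) + s i m • z2, add_mem (add_mem (add_mem (k1 _ hy1)
        (k2 _ hz1)) (Submodule.smul_mem _ _ (k2 _ hz2))) (Submodule.smul_mem _ _ (k1 _ hz2)),
        y2 - z2 * c m + t m • z2, add_mem (sub_mem (k1 _ hy2) (k2 _ hz2))
          (Submodule.smul_mem _ _ (k1 _ hz2)), ?_⟩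
      rw [LinearMap.mulRight_apply, mul_add, ← mul_assoc, e1, e2, add_mul, mul_assoc z2, hrel i m]
      simp only [mul_add, add_mul, sub_mul, mul_neg, mul_smul_comm, smul_mul_assoc, mul_one,
        mul_assoc]
      abel
    · intro i hi x hx
      obtain ⟨y, hy, _, ⟨z, hz, rfl⟩, rfl⟩ := Submodule.mem_sup.1 hx
      rw [LinearMap.mulRight_apply, mul_add, ← mul_assoc]
      rcases List.mem_cons.1 hi with rfl | hi
      · obtain ⟨y1, hy1, y2, hy2, e1⟩ := h3 i y hy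
        obtain ⟨z1, hz1, z2, hz2, e2⟩ := h3 i z hz
        rw [e1, e2, add_mul, mul_assoc z2, hsq, mul_sub, mul_smul_comm, mul_one]
        exact add_mem (add_mem (k1 _ hy1) (k2 _ hy2)) (add_mem (k2 _ hz1)
          (sub_mem (Submodule.smul_mem _ _ (k2 _ hz2)) (k1 _ hz2)))
      · exact add_mem (k1 _ (h4 i hi y hy)) (k2 _ (h4 i hi z hz))

/-- Let `A` be the ring generated by the traces of the `c i` and `c i * c j`, finite over `ℤ`. Put
`Λ [] = A • 1` and `Λ (m :: l) = Λ l + Λ l * c m`, finitely generated `ℤ`-modules stable under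
`A`. By induction `c i * Λ l ⊆ Λ l + Λ l * c i` for every `i` (`cliff_rel`), and then
`c i * Λ l ⊆ Λ l` for `i ∈ l` (`c ^ 2 = tr c • c - 1`). Also `c⁻¹ = tr c • 1 - c`. -/
theorem exists_lattice {c : Fin n → GLr 2} (hd : ∀ i, (c i).val.det = 1)
    (h1 : ∀ i, IsIntegral ℤ (c i).val.trace)
    (h2 : ∀ i j, IsIntegral ℤ (c i * c j).val.trace) :
    ∃ Λ : Submodule ℤ (Matrix (Fin 2) (Fin 2) ℂ), Λ.FG ∧ 1 ∈ Λ ∧
      ∀ γ ∈ Subgroup.closure (Set.range c), ∀ x ∈ Λ, γ.val * x ∈ Λ := by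
  let S : Set ℂ := (Set.range fun i => (c i).val.trace) ∪
    Set.range fun q : Fin n × Fin n => (c q.1 * c q.2).val.trace
  let A : Subalgebra ℤ ℂ := Algebra.adjoin ℤ S
  have hA : Module.Finite ℤ A := Algebra.finite_adjoin_of_finite_of_isIntegral
    ((Set.finite_range _).union (Set.finite_range _)) (by
      rintro _ (⟨i, rfl⟩ | ⟨q, rfl⟩)
      · exact h1 i
      · exact h2 q.1 q.2)
  let t : Fin n → A := fun i => ⟨_, Algebra.subset_adjoin (Or.inl ⟨i, rfl⟩)⟩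
  let u : Fin n → Fin n → A := fun i j => ⟨_, Algebra.subset_adjoin (Or.inr ⟨(i, j), rfl⟩)⟩
  obtain ⟨Λ, k1, k2, -, k4⟩ := cliff_lat (fun i => (c i).val) t (fun i j => u i j - t i * t j)
    (fun i j => cliff_rel _ _) (fun i => cliff_sq (hd i)) (List.finRange n)
  refine ⟨Λ.restrictScalars ℤ, k1.restrictScalars, k2, fun γ hγ => ?_⟩
  induction hγ using Subgroup.closure_induction'' with
  | mem _ h =>
    obtain ⟨i, rfl⟩ := h
    exact k4 i (List.mem_finRange i)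
  | inv_mem _ h =>
    obtain ⟨i, rfl⟩ := h
    intro x hx
    rw [cliff_inv (hd i), sub_mul, Matrix.smul_mul, one_mul]
    exact sub_mem (Λ.smul_mem (t i) hx) (k4 i (List.mem_finRange i) x hx)
  | one => intro x hx; simpa using hx
  | mul a b _ _ ha hb =>
    intro x hx
    rw [Units.val_mul, mul_assoc]
    exact ha _ (hb x hx)

/-- The span of `T` over `ℤ` is finitely generated, by algebraic integers; they generate a number
field `K`. Use `exists_aut_ext` and `NumberField.Embeddings.finite_of_norm_le` as at the end of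
`Sys.finite_gp` in `GR2/GFin.lean`. -/
theorem finite_of_bdd {T : Set ℂ} {N : Submodule ℤ ℂ} (hN : N.FG) (hT : ∀ t ∈ T, t ∈ N)
    (hi : ∀ t ∈ T, IsIntegral ℤ t) {B : ℝ} (hb : ∀ τ : ℂ ≃+* ℂ, ∀ t ∈ T, ‖τ t‖ ≤ B) :
    T.Finite := by
  obtain ⟨F, hF⟩ : (Submodule.span ℤ T).FG := hN.of_le (Submodule.span_le.2 hT)
  have h1 : Submodule.span ℤ T ≤ (integralClosure ℤ ℂ).toSubmodule := Submodule.span_le.2 hi
  let K : IntermediateField ℚ ℂ := IntermediateField.adjoin ℚ (F : Set ℂ)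
  have : FiniteDimensional ℚ K := IntermediateField.finiteDimensional_adjoin fun z hz =>
    IsIntegral.tower_top (R := ℤ) (h1 (hF ▸ Submodule.subset_span hz))
  have : NumberField K := {}
  have h2 : Submodule.span ℤ (F : Set ℂ) ≤ K.toSubalgebra.toSubmodule.restrictScalars ℤ :=
    Submodule.span_le.2 (IntermediateField.subset_adjoin ℚ _)
  refine ((NumberField.Embeddings.finite_of_norm_le K ℂ B).image Subtype.val).subset fun x hx => ?_
  refine ⟨⟨x, h2 (hF ▸ Submodule.subset_span hx)⟩,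
    ⟨(isIntegral_algHom_iff (K.val.restrictScalars ℤ) Subtype.val_injective).1 (hi x hx),
      fun φ => ?_⟩, rfl⟩
  obtain ⟨τ, hτ⟩ := exists_aut_ext K φ
  rw [← hτ]
  exact hb τ x hx

theorem cliff_diag {X Y : Matrix (Fin 2) (Fin 2) ℂ} {ζ : ℂ} (hζ : ζ ≠ ζ⁻¹) (h1 : X.trace = Y.trace)
    (h2 : (X * !![ζ, 0; 0, ζ⁻¹]).trace = (Y * !![ζ, 0; 0, ζ⁻¹]).trace) :
    X 0 0 = Y 0 0 ∧ X 1 1 = Y 1 1 := by
  simp only [Matrix.trace_fin_two, Matrix.mul_apply, Fin.sum_univ_two, Matrix.of_apply,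
    Matrix.cons_val', Matrix.cons_val_zero, Matrix.cons_val_one, Matrix.cons_val_fin_one,
    mul_zero, add_zero, zero_add] at h1 h2
  have h3 : X 0 0 = Y 0 0 :=
    mul_right_cancel₀ (sub_ne_zero.2 hζ) (by linear_combination h2 - ζ⁻¹ * h1)
  exact ⟨h3, by linear_combination h1 - h3⟩

/-- For `γ` in the group `tr γ • x = γ * x + γ⁻¹ * x`, so `tr γ` stabilises `Λ` and is integral
(`isIntegral_of_smul_mem_submodule`); the traces lie in the image of `Λ`. An element `γ` is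
determined by the traces of `γ`, `γ * c o`, `γ * c j`, `γ * c j * c o`: for any `X`, `tr X` and
`tr (X * c o)` determine the diagonal of `X`. -/
theorem finite_of_traces {c : Fin n → GLr 2} {o : Fin n} {ζ : ℂ} (hζ : ζ ≠ ζ⁻¹)
    (ho : (c o).val = !![ζ, 0; 0, ζ⁻¹]) (hd : ∀ i, (c i).val.det = 1)
    (h1 : ∀ i, IsIntegral ℤ (c i).val.trace) (h2 : ∀ i j, IsIntegral ℤ (c i * c j).val.trace)
    (hq : ∃ l, (c l).val 0 1 ≠ 0) (hr : ∃ l, (c l).val 1 0 ≠ 0)
    (hb : ∀ τ : ℂ ≃+* ℂ, ∀ γ ∈ Subgroup.closure (Set.range c), ‖τ γ.val.trace‖ ≤ 2) :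
    Finite (Subgroup.closure (Set.range c)) := by
  obtain ⟨Λ, k1, k2, k3⟩ := exists_lattice hd h1 h2
  obtain ⟨l, hl⟩ := hq
  obtain ⟨j, hj⟩ := hr
  have hdet : ∀ γ ∈ Subgroup.closure (Set.range c), γ.val.det = 1 := by
    intro γ hγ
    induction hγ using Subgroup.closure_induction with
    | mem _ h =>
      obtain ⟨i, rfl⟩ := h
      exact hd i
    | one => simp
    | mul a b _ _ ha hb => rw [Units.val_mul, Matrix.det_mul, ha, hb, one_mul]
    | inv a _ ha =>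
      have h3 : (a.val * (a⁻¹).val).det = 1 := by rw [Units.mul_inv, Matrix.det_one]
      rwa [Matrix.det_mul, ha, one_mul] at h3
  let T : Set ℂ := {x | ∃ γ ∈ Subgroup.closure (Set.range c), γ.val.trace = x}
  have hT : T.Finite := by
    refine finite_of_bdd (k1.map (Matrix.traceLinearMap (Fin 2) ℤ ℂ)) ?_ ?_ (B := 2) ?_
    · rintro _ ⟨γ, hγ, rfl⟩
      exact ⟨γ.val, by simpa using k3 γ hγ 1 k2, rfl⟩
    · rintro _ ⟨γ, hγ, rfl⟩
      refine isIntegral_of_smul_mem_submodule Λ (fun h => ?_) k1 _ fun x hx => ?_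
      · rw [h] at k2
        exact one_ne_zero ((Submodule.mem_bot ℤ).1 k2)
      · have h3 : γ.val.trace • x = γ.val * x + (γ⁻¹).val * x := by
          rw [cliff_inv (hdet γ hγ), sub_mul, Matrix.smul_mul, one_mul, add_sub_cancel]
        rw [h3]
        exact add_mem (k3 γ hγ x hx) (k3 _ (inv_mem hγ) x hx)
    · rintro τ _ ⟨γ, hγ, rfl⟩
      exact hb τ γ hγ
  have hc : ∀ i, c i ∈ Subgroup.closure (Set.range c) := fun i => Subgroup.subset_closure ⟨i, rfl⟩
  refine Set.finite_univ_iff.1 (Set.Finite.of_injOn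
    (f := fun γ : Subgroup.closure (Set.range c) => (γ.1.val.trace, (γ.1 * c o).val.trace,
      (γ.1 * c j).val.trace, (γ.1 * c j * c o).val.trace, (γ.1 * c l).val.trace,
      (γ.1 * c l * c o).val.trace)) (fun γ _ => ?_) (fun γ _ δ _ h => ?_)
    (hT.prod (hT.prod (hT.prod (hT.prod (hT.prod hT))))))
  · exact ⟨⟨_, γ.2, rfl⟩, ⟨_, mul_mem γ.2 (hc o), rfl⟩, ⟨_, mul_mem γ.2 (hc j), rfl⟩,
      ⟨_, mul_mem (mul_mem γ.2 (hc j)) (hc o), rfl⟩, ⟨_, mul_mem γ.2 (hc l), rfl⟩,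
      ⟨_, mul_mem (mul_mem γ.2 (hc l)) (hc o), rfl⟩⟩
  · simp only [Prod.mk.injEq, Units.val_mul, ho] at h
    obtain ⟨e1, e2, e3, e4, e5, e6⟩ := h
    obtain ⟨a1, a2⟩ := cliff_diag hζ e1 e2
    have a3 := (cliff_diag hζ e3 e4).1
    have a4 := (cliff_diag hζ e5 e6).2
    simp only [Matrix.mul_apply, Fin.sum_univ_two, a1, a2, add_right_inj, add_left_inj] at a3 a4
    have a5 := mul_right_cancel₀ hj a3
    have a6 := mul_right_cancel₀ hl a4
    refine Subtype.ext (Units.ext ?_)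
    ext a b
    fin_cases a <;> fin_cases b <;> assumption

end Pool.Agent.GR
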