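import Pool.Agent.Lib.MP_aa40d3_nt.R2.Defs
import Pool.Agent.Lib.MP_aa40d3_nt.MR.Link

/-! From braid states to a class closed under twists. -/

open Polynomial Matrix

namespace Pool.Agent.GR

variable {n r : ℕ} {L0 : List (Fin n)} {ρ : Fin n → ℝ} {o : Fin n}

/-- `St.low` and `Adj` from `LowerL`. -/
theorem LoopsP.st {Mov : Finset (Fin n)} {g h : Fin n → GLr r} {ε : Fin n → Fin r → ℂ}
    (h0 : LowerL ρ L0) (ho : LoopsP Mov ρ g ε) {L₁ L₂ : List (Fin n)} {a b : Fin n}
    (hs : St Mov L0 g (L₁ ++ a :: b :: L₂) h) (hab : a ∈ Mov ∨ b ∈ Mov) :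
    OrrM ε {a, b} (h a * h b).val := by
  obtain ⟨μ, h1, ⟨h2, h3⟩, rfl⟩ := hs.low h0
  rw [List.pairwise_append, List.pairwise_cons, List.pairwise_cons] at h2
  obtain ⟨-, ⟨p1, p2, -⟩, p3⟩ := h2
  refine ho μ h1 a b ⟨p1 b List.mem_cons_self, fun c hc => le_of_not_gt fun hb => ?_⟩ hab
  have h4 := h3 b (by simp) c hb
  simp only [List.mem_append, List.mem_cons] at h4
  rcases h4 with h4 | rfl | rfl | h4
  · exact hc.not_gt (p3 c h4 a List.mem_cons_self)
  · exact hc.false
  · exact hb.false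
  · exact hb.not_gt (p2 c h4)

section
variable {G : Type} [Group G] {g h : Fin n → G}

theorem cls2_eq {L L' : List (Fin n)} {h' : Fin n → G} (hs : St {o} L0 g L h) (e : L' = L)
    (e' : ∀ p, h' p = h p) : St {o} L0 g L' h' := by
  rwa [e, funext e']

theorem cls2_ne (h0 : L0.Nodup) {L₁ L₂ : List (Fin n)} {a : Fin n}
    (hs : St {o} L0 g (L₁ ++ o :: a :: L₂) h) : a ≠ o := by
  rintro rfl
  exact (List.nodup_cons.1 (List.nodup_append.1 (hs.perm.nodup_iff.2 h0)).2.1).1 List.mem_cons_self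

theorem cls2_jump {L₁ L₂ : List (Fin n)} {a b : Fin n} (hs : St {o} L0 g (L₁ ++ a :: b :: L₂) h)
    (hab : a = o ∨ b = o) :
    St {o} L0 g (L₁ ++ b :: a :: L₂) fun p => if p = a then (h b)⁻¹ * h p * h b else h p := by
  have h1 := St.move (L₁ := L₁) (T := [a]) (L₂ := L₂) (i := b) (by simpa using hs)
    (by simpa using hab.symm)
  have e : mvT h b [a].toFinset = fun p => if p = a then (h b)⁻¹ * h p * h b else h p :=
    funext fun p => by simp [mvT]
  rw [e] at h1
  simpa using h1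

/-- Powers of the full twist: `a` jumps to the left over `o`, then `o` jumps over `a`. -/
theorem St.full (h0 : L0.Nodup) {L₁ L₂ : List (Fin n)} {a : Fin n}
    (hs : St {o} L0 g (L₁ ++ o :: a :: L₂) h) (k : ℕ) :
    St {o} L0 g (L₁ ++ o :: a :: L₂) fun p =>
      if p = o ∨ p = a then ((h o * h a) ^ k)⁻¹ * h p * (h o * h a) ^ k else h p := by
  have hne := cls2_ne h0 hs
  induction k with
  | zero => simpa using hs
  | succ k ih =>
    refine cls2_eq (cls2_jump (cls2_jump ih (Or.inl rfl)) (Or.inr rfl)) rfl fun p => ?_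
    by_cases e : p = o
    · simp only [e, hne, hne.symm, true_or, or_true, if_true, if_false, pow_succ']
      generalize (h o * h a) ^ k = x
      group
    by_cases e' : p = a
    · simp only [e', hne, true_or, or_true, if_true, if_false, pow_succ']
      generalize (h o * h a) ^ k = x
      group
    · simp only [e, e', or_self, if_false]

/-- The inverse move: `St.full` with `k = m - 1`, `m` the order of `h o * h a`, then `a` jumps
over `o`. -/
theorem St.back (h0 : L0.Nodup) {L₁ L₂ : List (Fin n)} {a : Fin n}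
    (hs : St {o} L0 g (L₁ ++ o :: a :: L₂) h) (hf : IsOfFinOrder (h o * h a)) :
    St {o} L0 g (L₁ ++ a :: o :: L₂) (Function.update h a (h o * h a * (h o)⁻¹)) := by
  have hne := cls2_ne h0 hs
  have e1 : (h o * h a) ^ (orderOf (h o * h a) - 1) = (h o * h a)⁻¹ := by
    rw [eq_inv_iff_mul_eq_one, ← pow_succ, Nat.sub_add_cancel hf.orderOf_pos, pow_orderOf_eq_one]
  have h1 := hs.full h0 (orderOf (h o * h a) - 1)
  rw [e1] at h1
  refine cls2_eq (cls2_jump h1 (Or.inl rfl)) rfl fun p => ?_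
  by_cases e : p = o
  · simp only [e, Function.update_of_ne hne.symm, true_or, or_true, if_true]
    group
  by_cases e' : p = a
  · simp only [e', hne, Function.update_self, or_true, if_true, if_false]
    group
  · simp only [e, e', Function.update_of_ne e', or_self, if_false]

/-- `o` moves to the right over `P`, unchanged. -/
theorem St.right (h0 : L0.Nodup)
    (hf : ∀ L₁ L₂ a h, St {o} L0 g (L₁ ++ o :: a :: L₂) h → IsOfFinOrder (h o * h a))
    {L₁ P L₂ : List (Fin n)} (hs : St {o} L0 g (L₁ ++ o :: P ++ L₂) h) :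
    St {o} L0 g (L₁ ++ P ++ o :: L₂) fun p => if p ∈ P then h o * h p * (h o)⁻¹ else h p := by
  induction P generalizing L₁ h with
  | nil => simpa using hs
  | cons a P ih =>
    have hs1 : St {o} L0 g (L₁ ++ o :: a :: (P ++ L₂)) h := by simpa using hs
    have hne := cls2_ne h0 hs1
    have ha : a ∉ P := fun ha => (List.nodup_cons.1 (List.nodup_cons.1 (List.nodup_append.1
      (hs1.perm.nodup_iff.2 h0)).2.1).2).1 (List.mem_append_left _ ha)
    have h1 := ih (L₁ := L₁ ++ [a]) (by simpa using hs1.back h0 (hf _ _ _ _ hs1))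
    refine cls2_eq h1 (by simp) fun p => ?_
    by_cases e : p = a
    · simp [e, ha]
    · simp [e, Function.update_of_ne hne.symm]

end

/-- Let `L0 = P ++ o :: Q` be sorted by `ρ` (`exists_lowerL`, see `group_finiteM`), `L = P ++ Q`, and
`𝒞 = {c | ∃ h u, St {o} L0 g (o :: L) h ∧ c = fun i => u * h i * u⁻¹}`. For `L = P' ++ j :: Q'`
move `o` to the right over `P'` (`St.right`), twist `k` times (`St.full`), jump back over `P'`
(`St.move`) and conjugate by `(s c_j) ^ k`: this is `Tw ρ o j k`, because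
`(s c) ^ k * ((s c) ^ k)⁻¹ * s⁻¹ * (s c) ^ k * s = (c s) ^ k`. Negative `z`: `Tw` depends only on
`z` modulo the order of `s c_j`, which is also the order of `c_j s`. -/
theorem exists_cl2 (hρ : Function.Injective ρ) {g : Fin n → GLr r} {ε : Fin n → Fin r → ℂ}
    (ho : LoopsP {o} ρ g ε) : ∃ 𝒞, Cl2 ρ o g ε 𝒞 ∧
      ∃ c ∈ 𝒞, Subgroup.closure (Set.range c) = Subgroup.closure (Set.range g) := by
  obtain ⟨L0, h1, h2⟩ := exists_lowerL hρ Finset.univ fun _ _ _ _ => Finset.mem_univ _
  have h0 : L0.Nodup := h1.1.imp fun hab e => hab.ne (congrArg _ e)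
  have hall : ∀ a, a ∈ L0 := fun a => List.mem_toFinset.1 (h2 ▸ Finset.mem_univ a)
  have hf : ∀ L₁ L₂ a h, St {o} L0 g (L₁ ++ o :: a :: L₂) h → IsOfFinOrder (h o * h a) :=
    fun L₁ L₂ a h hs => Units.isOfFinOrder_val.1
      (ho.st h1 hs (Or.inl (Finset.mem_singleton_self o))).1
  obtain ⟨P, Q, e0⟩ := List.append_of_mem (hall o)
  have hs0 : St {o} L0 g (o :: (P ++ Q)) (mvT g o P.toFinset) := by
    simpa using St.move (L₁ := []) (T := P) (L₂ := Q) (i := o) (L0 := L0) (g := g) (h := g)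
      (by simpa [← e0] using St.init) (Or.inl (Finset.mem_singleton_self o))
  have hsort : (P ++ Q).Pairwise fun a b => ρ a < ρ b :=
    (e0 ▸ h1.1).sublist ((List.sublist_cons_self o Q).append_left P)
  have hmem : ∀ j, j ≠ o → j ∈ P ++ Q := fun j hj => by simpa [e0, hj] using hall j
  generalize P ++ Q = L at hs0 hsort hmem
  have key : ∀ h, St {o} L0 g (o :: L) h → ∀ j, j ≠ o → ∃ A B, L = A ++ j :: B ∧ o ∉ A ∧ j ∉ A ∧
      St {o} L0 g (A ++ o :: j :: B) fun p => if p ∈ A then h o * h p * (h o)⁻¹ else h p := by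
    intro h hs j hj
    obtain ⟨A, B, rfl⟩ := List.append_of_mem (hmem j hj)
    have hnd := List.nodup_cons.1 (hs.perm.nodup_iff.2 h0)
    refine ⟨A, B, rfl, fun ho => hnd.1 (List.mem_append_left _ ho), fun hA =>
      (List.nodup_append.1 hnd.2).2.2 j hA j List.mem_cons_self rfl, ?_⟩
    simpa using St.right h0 hf (L₁ := []) (P := A) (L₂ := j :: B) (by simpa using hs)
  refine ⟨{c | ∃ h u, St {o} L0 g (o :: L) h ∧ c = fun i => u * h i * u⁻¹}, ⟨?_, ?_, ?_, ?_⟩,
    _, ⟨_, 1, hs0, rfl⟩, by simpa using hs0.closure h0⟩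
  · rintro _ ⟨h, u, hs, rfl⟩ j hj z
    obtain ⟨A, B, rfl, hoA, hjA, hs1⟩ := key h hs j hj
    have hfin := hf _ _ _ _ hs1
    have hs2 := hs1.full h0
    simp only [hoA, hjA, if_false] at hfin hs2
    obtain ⟨k, hk⟩ := hfin.mem_powers_iff_mem_zpowers.2 ⟨z, rfl⟩
    simp only at hk
    have hs3 := St.move (L₁ := []) (T := A) (L₂ := j :: B) (i := o) (by simpa using hs2 k)
      (Or.inl (Finset.mem_singleton_self o))
    refine ⟨_, u * (h o * h j) ^ k, by simpa using hs3, funext fun p => ?_⟩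
    have e1 : (u * h o * u⁻¹ * (u * h j * u⁻¹)) ^ z = u * (h o * h j) ^ k * u⁻¹ := by
      rw [hk, ← conj_zpow]
      congr 1
      group
    have e2 : (u * h j * u⁻¹ * (u * h o * u⁻¹)) ^ z =
        u * (h o)⁻¹ * (h o * h j) ^ k * (u * (h o)⁻¹)⁻¹ := by
      rw [hk, ← conj_zpow]
      congr 1
      group
    rw [List.pairwise_append, List.pairwise_cons] at hsort
    simp only [Tw, e1, e2, mvT, List.mem_toFinset]
    generalize (h o * h j) ^ k = x
    by_cases e : p = o ∨ p = j
    · have e3 : p ∉ A := by rintro hp; rcases e with rfl | rfl <;> contradiction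
      simp only [e, e3, if_true, if_false]
      group
    have e3 := hmem p fun e3 => e (Or.inl e3)
    by_cases e4 : p ∈ A
    · simp only [e, e4, hoA, hsort.2.2 p e4 j List.mem_cons_self, true_or, if_true, if_false]
      group
    · have e5 : p ∈ B := by simpa [e4, (not_or.1 e).2] using e3
      simp only [e, e4, (hsort.2.1.1 p e5).not_gt, if_false]
      group
  · rintro _ ⟨h, u, hs, rfl⟩ v
    exact ⟨h, v * u, hs, funext fun i => by group⟩
  · rintro _ ⟨h, u, hs, rfl⟩ j hj
    obtain ⟨A, B, -, hoA, hjA, hs1⟩ := key h hs j hj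
    have h3 := ho.st h1 hs1 (Or.inl (Finset.mem_singleton_self o))
    simp only [hoA, hjA, if_false] at h3
    exact OrrM.of_isConj (isConj_iff.2 ⟨u⁻¹, by group⟩) h3
  · rintro _ ⟨h, u, hs, rfl⟩ j
    exact (hs.conj j).trans (isConj_iff.2 ⟨u, rfl⟩)

end Pool.Agent.GR
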