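import Pool.Agent.Lib.MP_aa40d3_nt.R2.Defs

/-! Real points of the Fricke cubic. -/

namespace Pool.Agent.GR

theorem omr_ord {X Y Z : ℝ} (h0 : 0 ≤ X) (h1 : X ≤ Y) (h2 : Y ≤ Z) (h3 : Z ≤ 2)
    (h : Y * Z ≤ 2 * X) : X ^ 2 + Y ^ 2 + Z ^ 2 - X * Y * Z ≤ 4 := by
  have e1 : 0 ≤ (Y - X) * (X + Y - Y * Z) := mul_nonneg (by linarith) (by linarith)
  have e2 : 0 ≤ (Z ^ 2 - Y ^ 2) * (2 - Z) := mul_nonneg (by nlinarith) (by linarith)
  have e3 : 0 ≤ (Z - 2) ^ 2 * (Z + 1) := mul_nonneg (sq_nonneg _) (by linarith)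
  nlinarith

theorem omr_abs {X Y Z : ℝ} (hX : 0 ≤ X) (hY : 0 ≤ Y) (hZ : 0 ≤ Z) (hX2 : X ≤ 2) (hY2 : Y ≤ 2)
    (hZ2 : Z ≤ 2) (h1 : Y * Z ≤ 2 * X) (h2 : X * Z ≤ 2 * Y) (h3 : X * Y ≤ 2 * Z) :
    X ^ 2 + Y ^ 2 + Z ^ 2 - X * Y * Z ≤ 4 := by
  rcases le_total X Y with a | a <;> rcases le_total Y Z with b | b <;>
    rcases le_total X Z with c | c
  · exact omr_ord hX a b hZ2 h1
  · exact omr_ord hX a b hZ2 h1
  · have := omr_ord hX c b hY2 (by linarith)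
    linarith
  · have := omr_ord hZ c a hY2 (by linarith)
    linarith
  · have := omr_ord hY a c hZ2 (by linarith)
    linarith
  · have := omr_ord hY b c hX2 (by linarith)
    linarith
  · have := omr_ord hZ b a hX2 (by linarith)
    linarith
  · have := omr_ord hZ b a hX2 (by linarith)
    linarith

theorem omr_cancel {u v : ℝ} (hu : 0 < u) (h : u ^ 2 ≤ 2 * (v * u)) : u ≤ 2 * v := by
  by_contra hc
  push Not at hc
  nlinarith

/-- At a maximum of `x² + y² + z²`. Put `X = |x|` etc.; `-x y z = X Y Z`, `Y Z ≤ 2 X` (or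
`Y Z = 0`) and so on. If `X ≤ Y ≤ Z` then `Q(Y) - Q(X) = (Y - X) (X + Y - Y Z) ≥ 0` and
`Q(Y) = Y² (2 - Z) + Z² ≤ 3 Z² - Z³ ≤ 4` because `Z³ - 3 Z² + 4 = (Z - 2)² (Z + 1)`. -/
theorem markov_max {x y z : ℝ} (hx : x ^ 2 ≤ 4) (hy : y ^ 2 ≤ 4) (hz : z ^ 2 ≤ 4)
    (h1 : (y * z + x) ^ 2 ≤ x ^ 2) (h2 : (x * z + y) ^ 2 ≤ y ^ 2) (h3 : (x * y + z) ^ 2 ≤ z ^ 2) :
    x ^ 2 + y ^ 2 + z ^ 2 + x * y * z ≤ 4 := by
  have k1 : (y * z) ^ 2 ≤ -(2 * (x * y * z)) := by nlinarith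
  have k2 : (x * z) ^ 2 ≤ -(2 * (x * y * z)) := by nlinarith
  have k3 : (x * y) ^ 2 ≤ -(2 * (x * y * z)) := by nlinarith
  have hP : x * y * z ≤ 0 := by nlinarith [sq_nonneg (y * z)]
  have hA : |x| * |y| * |z| = -(x * y * z) := by
    rw [← abs_mul, ← abs_mul, abs_of_nonpos hP]
  have b1 : |x| ≤ 2 := abs_le_of_sq_le_sq' (by linarith) (by norm_num) |> abs_le.2
  have b2 : |y| ≤ 2 := abs_le_of_sq_le_sq' (by linarith) (by norm_num) |> abs_le.2
  have b3 : |z| ≤ 2 := abs_le_of_sq_le_sq' (by linarith) (by norm_num) |> abs_le.2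
  have key : ∀ u v t : ℝ, (u * v) ^ 2 ≤ 2 * (|t| * (|u| * |v|)) → |u| * |v| ≤ 2 * |t| := by
    intro u v t h
    rcases (mul_nonneg (abs_nonneg u) (abs_nonneg v)).eq_or_lt with h0 | h0
    · rw [← h0]
      positivity
    · refine omr_cancel h0 ?_
      rwa [← abs_mul, sq_abs, abs_mul]
  have := omr_abs (abs_nonneg x) (abs_nonneg y) (abs_nonneg z) b1 b2 b3
    (key y z x (by linarith)) (key x z y (by linarith)) (key x y z (by linarith))
  rw [sq_abs, sq_abs, sq_abs, hA] at this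
  linarith

theorem omr_third {S : Set (ℝ × ℝ × ℝ)}
    (fx : ∀ x y z, (x, y, z) ∈ S → (-(y * z) - x, y, z) ∈ S)
    (fy : ∀ x y z, (x, y, z) ∈ S → (x, -(x * z) - y, z) ∈ S)
    (hb : ∀ x y z, (x, y, z) ∈ S → x ^ 2 ≤ 4 ∧ y ^ 2 ≤ 4 ∧ ¬(x = 0 ∧ y = 0))
    {x y z : ℝ} (h : (x, y, z) ∈ S) : z ^ 2 ≤ 4 := by
  by_contra hc
  have hz : 2 < |z| := by
    by_contra h2
    push Not at h2
    exact hc (by nlinarith [sq_abs z, abs_nonneg z])
  have hm : 0 < max |x| |y| := by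
    rcases not_and_or.1 (hb x y z h).2.2 with h0 | h0
    · exact lt_max_of_lt_left (abs_pos.2 h0)
    · exact lt_max_of_lt_right (abs_pos.2 h0)
  have grow : ∀ u v : ℝ, |u| ≤ |v| → (|z| - 1) * |v| ≤ |-(v * z) - u| := by
    intro u v huv
    have e1 : |v * z| ≤ |-(v * z) - u| + |u| := by
      have := abs_add_le (-(v * z) - u) u
      rwa [sub_add_cancel, abs_neg] at this
    rw [abs_mul] at e1
    nlinarith
  have ind : ∀ n : ℕ, ∃ u v, (u, v, z) ∈ S ∧ (|z| - 1) ^ n * max |x| |y| ≤ max |u| |v| := by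
    intro n
    induction n with
    | zero => exact ⟨x, y, h, by simp⟩
    | succ n ih =>
      obtain ⟨u, v, huv, hle⟩ := ih
      have hl : (|z| - 1) ^ (n + 1) * max |x| |y| ≤ (|z| - 1) * max |u| |v| := by
        rw [pow_succ', mul_assoc]
        exact mul_le_mul_of_nonneg_left hle (by linarith)
      rcases le_total |u| |v| with c | c
      · refine ⟨_, _, fx u v z huv, le_max_of_le_left (hl.trans ?_)⟩
        rw [max_eq_right c]
        exact grow u v c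
      · refine ⟨_, _, fy u v z huv, le_max_of_le_right (hl.trans ?_)⟩
        rw [max_eq_left c]
        exact grow v u c
  obtain ⟨n, hn⟩ := pow_unbounded_of_one_lt (2 / max |x| |y|) (show 1 < |z| - 1 by linarith)
  obtain ⟨u, v, huv, hle⟩ := ind n
  rw [div_lt_iff₀ hm] at hn
  obtain ⟨b1, b2, -⟩ := hb u v z huv
  have c1 : |u| ≤ 2 := abs_le_of_sq_le_sq' (by linarith) (by norm_num) |> abs_le.2
  have c2 : |v| ≤ 2 := abs_le_of_sq_le_sq' (by linarith) (by norm_num) |> abs_le.2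
  have := max_le c1 c2
  linarith

/-- First `z² ≤ 4` on `S`: if `|z₀| > 2`, let `M > 0` be the supremum of `max |x| |y|` over the
points with third coordinate `z₀`; a point with `|y| > 2 M / |z₀|` gives `|x + x'| > 2 M`. Then
restrict `S` to the level set of `Q = x² + y² + z² + x y z` (the flips preserve `Q`), take the
closure (compact, closed under the flips by `Set.MapsTo.closure`) and a maximum of
`x² + y² + z²` (`IsCompact.exists_isMaxOn`), and use `markov_max`. -/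
theorem markov_bound {S : Set (ℝ × ℝ × ℝ)}
    (fx : ∀ x y z, (x, y, z) ∈ S → (-(y * z) - x, y, z) ∈ S)
    (fy : ∀ x y z, (x, y, z) ∈ S → (x, -(x * z) - y, z) ∈ S)
    (fz : ∀ x y z, (x, y, z) ∈ S → (x, y, -(x * y) - z) ∈ S)
    (hb : ∀ x y z, (x, y, z) ∈ S → x ^ 2 ≤ 4 ∧ y ^ 2 ≤ 4 ∧ ¬(x = 0 ∧ y = 0))
    {x y z : ℝ} (h : (x, y, z) ∈ S) : x ^ 2 + y ^ 2 + z ^ 2 + x * y * z ≤ 4 := by
  set q := x ^ 2 + y ^ 2 + z ^ 2 + x * y * z with hq
  let T : Set (ℝ × ℝ × ℝ) :=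
    {p | p ∈ S ∧ p.1 ^ 2 + p.2.1 ^ 2 + p.2.2 ^ 2 + p.1 * p.2.1 * p.2.2 = q}
  let K : Set (ℝ × ℝ × ℝ) :=
    {p | p.1 ^ 2 + p.2.1 ^ 2 + p.2.2 ^ 2 + p.1 * p.2.1 * p.2.2 = q} ∩
      Set.Icc (-2) 2 ×ˢ Set.Icc (-2) 2 ×ˢ Set.Icc (-2) 2
  have hK : IsCompact K :=
    (isCompact_Icc.prod (isCompact_Icc.prod isCompact_Icc)).inter_left
      (isClosed_eq (by fun_prop) continuous_const)
  have hTK : T ⊆ K := by
    rintro ⟨u, v, t⟩ ⟨h1, h2⟩
    obtain ⟨b1, b2, -⟩ := hb u v t h1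
    have b3 := omr_third fx fy hb h1
    exact ⟨h2, abs_le_of_sq_le_sq' (by linarith) (by norm_num),
      abs_le_of_sq_le_sq' (by linarith) (by norm_num),
      abs_le_of_sq_le_sq' (by linarith) (by norm_num)⟩
  have hC : closure T ⊆ K := closure_minimal hTK hK.isClosed
  have hc : IsCompact (closure T) := hK.of_isClosed_subset isClosed_closure hC
  obtain ⟨p, hp, hmax⟩ := hc.exists_isMaxOn ⟨(x, y, z), subset_closure ⟨h, rfl⟩⟩
    (f := fun p : ℝ × ℝ × ℝ => p.1 ^ 2 + p.2.1 ^ 2 + p.2.2 ^ 2) (by fun_prop)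
  have m1 : Set.MapsTo (fun p : ℝ × ℝ × ℝ => (-(p.2.1 * p.2.2) - p.1, p.2.1, p.2.2)) T T := by
    rintro ⟨u, v, t⟩ ⟨h1, h2⟩
    exact ⟨fx u v t h1, by rw [← h2]; ring⟩
  have m2 : Set.MapsTo (fun p : ℝ × ℝ × ℝ => (p.1, -(p.1 * p.2.2) - p.2.1, p.2.2)) T T := by
    rintro ⟨u, v, t⟩ ⟨h1, h2⟩
    exact ⟨fy u v t h1, by rw [← h2]; ring⟩
  have m3 : Set.MapsTo (fun p : ℝ × ℝ × ℝ => (p.1, p.2.1, -(p.1 * p.2.1) - p.2.2)) T T := by
    rintro ⟨u, v, t⟩ ⟨h1, h2⟩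
    exact ⟨fz u v t h1, by rw [← h2]; ring⟩
  have n1 := hmax (m1.closure (by fun_prop) hp)
  have n2 := hmax (m2.closure (by fun_prop) hp)
  have n3 := hmax (m3.closure (by fun_prop) hp)
  obtain ⟨u, v, t⟩ := p
  obtain ⟨e, ⟨a1, a2⟩, ⟨a3, a4⟩, a5, a6⟩ := hC hp
  simp only [Set.mem_ofPred_eq] at n1 n2 n3 e a1 a2 a3 a4 a5 a6
  rw [← e]
  refine markov_max ?_ ?_ ?_ ?_ ?_ ?_ <;> nlinarith

theorem omr_sq {s : ℂ} {r : ℝ} (hr : 0 ≤ r) (h : s ^ 2 = r) : s.im = 0 := by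
  have h1 := congrArg Complex.re h
  have h2 := congrArg Complex.im h
  simp only [sq, Complex.mul_re, Complex.mul_im, Complex.ofReal_re, Complex.ofReal_im] at h1 h2
  by_contra hc
  have h3 : s.re = 0 := by
    have : s.re * s.im = 0 := by linarith
    exact (mul_eq_zero.1 this).resolve_right hc
  rw [h3] at h1
  have := mul_self_pos.2 hc
  linarith

theorem omr_kp {u v : ℝ} {z : ℂ} (huv : 0 ≤ (4 - u ^ 2) * (4 - v ^ 2)) (h : kp u v z = 0) :
    z.im = 0 := by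
  have h1 := kp_sq u v z
  rw [h] at h1
  have h2 : (2 * z - u * v) ^ 2 = (((4 - u ^ 2) * (4 - v ^ 2) : ℝ) : ℂ) := by
    push_cast
    linear_combination -h1
  simpa using omr_sq huv h2

theorem omr_kp' {u x : ℝ} {v : ℂ} (hux : 0 ≤ (4 - u ^ 2) * (4 - x ^ 2)) (h : kp u v x = 0) :
    v.im = 0 := by
  refine omr_kp hux ?_
  rw [← h]
  unfold kp
  ring

/-- Lemma R of the blueprint. -/
theorem Om.real {a b e w : ℂ} {Ω : Set (ℂ × ℂ × ℂ)} (h : Om a b e w Ω) (ha : Rl a)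
    (ha2 : a ^ 2 ≠ 4) (hb : Rl b) (he : Rl e) (hΩ : ∀ x y z, (x, y, z) ∈ Ω → Rl x ∧ Rl y)
    {x y z : ℂ} (hP : (x, y, z) ∈ Ω) :
    (b = 0 ∧ e = 0 ∧ x = 0 ∧ y = 0) ∨ (z.im = 0 ∧ w.im = 0) := by
  have i1 : ∀ x y z, (x, y, z) ∈ Ω → e * w.im = y * z.im ∧ b * w.im = x * z.im := by
    intro x y z hP
    have r1 := (hΩ _ _ _ (h.fx x y z hP)).1.1
    have r2 := (hΩ _ _ _ (h.fy x y z hP)).2.1
    obtain ⟨⟨r3, -⟩, r4, -⟩ := hΩ x y z hP
    simp only [Complex.sub_im, Complex.add_im, Complex.mul_im, ha.1, hb.1, he.1, r3, r4] at r1 r2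
    constructor <;> apply Complex.ext <;>
      simp only [Complex.mul_re, Complex.mul_im, Complex.ofReal_re, Complex.ofReal_im, hb.1, he.1,
        r3, r4] <;> linarith
  have i2 : ∀ x y z, (x, y, z) ∈ Ω → 2 * e * w.im = a * y * w.im ∧ 2 * b * w.im = a * x * w.im := by
    intro x y z hP
    obtain ⟨r1, r2⟩ := i1 x y z hP
    obtain ⟨r3, r4⟩ := i1 _ _ _ (h.fz x y z hP)
    obtain ⟨⟨r5, -⟩, r6, -⟩ := hΩ x y z hP
    have r7 : (((b * e + a * w - x * y - z).im : ℝ) : ℂ) = a * w.im - z.im := by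
      apply Complex.ext <;>
        simp [Complex.mul_re, Complex.mul_im, ha.1, hb.1, he.1, r5, r6]
    rw [r7] at r3 r4
    exact ⟨by linear_combination r1 + r3, by linear_combination r2 + r4⟩
  by_cases hZ : b = 0 ∧ e = 0 ∧ x = 0 ∧ y = 0
  · exact Or.inl hZ
  right
  obtain ⟨hx, hy⟩ := hΩ x y z hP
  lift a to ℝ using ha.1
  lift b to ℝ using hb.1
  lift e to ℝ using he.1
  lift x to ℝ using hx.1
  lift y to ℝ using hy.1
  have ba : 0 ≤ 4 - a ^ 2 := by simpa using ha.2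
  have bb : 0 ≤ 4 - b ^ 2 := by simpa using hb.2
  have be : 0 ≤ 4 - e ^ 2 := by simpa using he.2
  have bx : 0 ≤ 4 - x ^ 2 := by simpa using hx.2
  have by' : 0 ≤ 4 - y ^ 2 := by simpa using hy.2
  have hF := h.cub _ _ _ hP
  by_cases hw : w.im = 0
  · refine ⟨?_, hw⟩
    by_contra hz
    have hz' : (z.im : ℂ) ≠ 0 := by exact_mod_cast hz
    have z0 : ∀ x y, (x, y, z) ∈ Ω → x = 0 ∧ y = 0 := by
      intro x y hP
      obtain ⟨r1, r2⟩ := i1 x y z hP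
      rw [hw, Complex.ofReal_zero, mul_zero] at r1 r2
      exact ⟨(mul_eq_zero.1 r2.symm).resolve_right hz', (mul_eq_zero.1 r1.symm).resolve_right hz'⟩
    obtain ⟨x0, y0⟩ := z0 _ _ hP
    have hA := (z0 _ _ (h.fx _ _ _ hP)).1
    have hB := (z0 _ _ (h.fy _ _ _ hP)).2
    rw [x0, y0] at hA hB
    have hk := fr_z a b e w x y z
    rw [hF, x0, y0] at hk
    have hk2 : kp b e z * kp a w z = 0 := by
      linear_combination hk + (a * b + e * w - z * (a * e + b * w)) * hA + (a * e + b * w) * hB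
    rcases mul_eq_zero.1 hk2 with k | k
    · exact hz (omr_kp (mul_nonneg bb be) k)
    · lift w to ℝ using hw
      have hwa : (w : ℂ) ^ 2 = a ^ 2 := by
        by_contra hne
        have hne' := sub_ne_zero.2 hne
        refine hZ ⟨?_, ?_, x0, y0⟩
        · refine (mul_eq_zero.1 (?_ : ((w : ℂ) ^ 2 - a ^ 2) * b = 0)).resolve_left hne'
          linear_combination w * hB - a * hA
        · refine (mul_eq_zero.1 (?_ : ((w : ℂ) ^ 2 - a ^ 2) * e = 0)).resolve_left hne'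
          linear_combination w * hA - a * hB
      have hwa' : w ^ 2 = a ^ 2 := by exact_mod_cast hwa
      exact hz (omr_kp (mul_nonneg ba (by rw [hwa']; exact ba)) k)
  exfalso
  have hw' : (w.im : ℂ) ≠ 0 := by exact_mod_cast hw
  have j : ∀ x y z, (x, y, z) ∈ Ω → 2 * e = a * y ∧ 2 * b = a * x := fun x y z hP =>
    ⟨mul_right_cancel₀ hw' (i2 x y z hP).1, mul_right_cancel₀ hw' (i2 x y z hP).2⟩
  obtain ⟨je, jb⟩ := j _ _ _ hP
  by_cases h0 : (a : ℂ) = 0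
  · have b0 : (b : ℂ) = 0 := by linear_combination jb / 2 + x / 2 * h0
    have e0 : (e : ℂ) = 0 := by linear_combination je / 2 + y / 2 * h0
    rw [h0, b0, e0] at h
    have hxy : ¬(x = 0 ∧ y = 0) := fun hh => hZ ⟨b0, e0, by simp [hh.1], by simp [hh.2]⟩
    have hz : z.im = 0 := by
      by_contra hz
      have hz' : (z.im : ℂ) ≠ 0 := by exact_mod_cast hz
      obtain ⟨r1, r2⟩ := i1 _ _ _ hP
      rw [e0, zero_mul] at r1
      rw [b0, zero_mul] at r2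
      refine hxy ⟨?_, ?_⟩
      · exact_mod_cast (mul_eq_zero.1 r2.symm).resolve_right hz'
      · exact_mod_cast (mul_eq_zero.1 r1.symm).resolve_right hz'
    lift z to ℝ using hz
    have hQ := markov_bound
      (S := {p : ℝ × ℝ × ℝ | ((p.1 : ℂ), (p.2.1 : ℂ), (p.2.2 : ℂ)) ∈ Ω ∧ ¬(p.1 = 0 ∧ p.2.1 = 0)})
      (x := x) (y := y) (z := z) ?_ ?_ ?_ ?_ ⟨hP, hxy⟩
    · have hc := h.cub _ _ _ hP
      have hs : w ^ 2 = ((4 - (x ^ 2 + y ^ 2 + z ^ 2 + x * y * z) : ℝ) : ℂ) := by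
        unfold fr at hc
        push_cast
        linear_combination hc
      exact hw (omr_sq (by linarith) hs)
    · rintro u v t ⟨p1, p2⟩
      refine ⟨by simpa using h.fx _ _ _ p1, fun hh => p2 ⟨?_, hh.2⟩⟩
      have q1 : -(v * t) - u = 0 := hh.1
      have q2 : v = 0 := hh.2
      show u = 0
      rw [q2] at q1
      linarith
    · rintro u v t ⟨p1, p2⟩
      refine ⟨by simpa using h.fy _ _ _ p1, fun hh => p2 ⟨hh.1, ?_⟩⟩
      have q1 : -(u * t) - v = 0 := hh.2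
      have q2 : u = 0 := hh.1
      show v = 0
      rw [q2] at q1
      linarith
    · rintro u v t ⟨p1, p2⟩
      exact ⟨by simpa using h.fz _ _ _ p1, p2⟩
    · rintro u v t ⟨p1, p2⟩
      obtain ⟨q1, q2⟩ := hΩ _ _ _ p1
      exact ⟨by simpa using q1.2, by simpa using q2.2, p2⟩
  have sing : ∀ z, ((x : ℂ), (y : ℂ), z) ∈ Ω →
      2 * x + y * z - (a * b + e * w) = 0 ∧ 2 * y + x * z - (a * e + b * w) = 0 := by
    intro z hP
    have r1 := (j _ _ _ (h.fx _ _ _ hP)).2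
    have r2 := (j _ _ _ (h.fy _ _ _ hP)).1
    exact ⟨mul_left_cancel₀ h0 (by linear_combination r1 - jb),
      mul_left_cancel₀ h0 (by linear_combination r2 - je)⟩
  obtain ⟨Fx, Fy⟩ := sing _ hP
  obtain ⟨Gx, Gy⟩ := sing _ (h.fz _ _ _ hP)
  have Fz : 2 * z + x * y - (b * e + a * w) = 0 := by
    by_contra hne
    have y0 : (y : ℂ) = 0 :=
      (mul_eq_zero.1 (by linear_combination Fx - Gx : y * _ = (0 : ℂ))).resolve_right hne
    have x0 : (x : ℂ) = 0 :=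
      (mul_eq_zero.1 (by linear_combination Fy - Gy : x * _ = (0 : ℂ))).resolve_right hne
    exact hZ ⟨by linear_combination jb / 2 + a / 2 * x0, by linear_combination je / 2 + a / 2 * y0,
      x0, y0⟩
  have ha4 : (4 : ℂ) - a ^ 2 ≠ 0 := sub_ne_zero.2 ha2.symm
  have kx := fr_x a b e w x y z
  have ky := fr_y a b e w x y z
  have kz := fr_z a b e w x y z
  rw [hF, Fy, Fz] at kx
  rw [hF, Fx, Fz] at ky
  rw [hF, Fx, Fy] at kz
  have x4 : (x : ℂ) ^ 2 = 4 := by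
    rcases mul_eq_zero.1 (by linear_combination kx : kp a b x * kp e w x = 0) with k | k
    · unfold kp at k
      refine mul_left_cancel₀ ha4 ?_
      linear_combination 4 * k - (2 * b - a * x) * jb
    · exact absurd (omr_kp' (mul_nonneg be bx) k) hw
  have y4 : (y : ℂ) ^ 2 = 4 := by
    rcases mul_eq_zero.1 (by linear_combination ky : kp a e y * kp b w y = 0) with k | k
    · unfold kp at k
      refine mul_left_cancel₀ ha4 ?_
      linear_combination 4 * k - (2 * e - a * y) * je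
    · exact absurd (omr_kp' (mul_nonneg bb by') k) hw
  rcases mul_eq_zero.1 (by linear_combination kz : kp b e z * kp a w z = 0) with k | k
  · have hz := omr_kp (mul_nonneg bb be) k
    have r1 := (i1 _ _ _ hP).1
    rw [hz, Complex.ofReal_zero, mul_zero] at r1
    have e0 := (mul_eq_zero.1 r1).resolve_right hw'
    have y0 : (y : ℂ) = 0 := mul_left_cancel₀ h0 (by linear_combination 2 * e0 - je)
    rw [y0] at y4
    norm_num at y4
  · have k1 := kp_sq a w z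
    rw [k] at k1
    have k2 : 4 * (2 * z - a * w) = x * y * (a ^ 2 - 4) := by
      linear_combination 4 * Fz + (2 * e) * jb + (a * x) * je
    have k3 : (2 * z - a * w) ^ 2 = (4 - a ^ 2) ^ 2 := by
      have k4 : (4 * (2 * z - a * w)) ^ 2 = x ^ 2 * y ^ 2 * (a ^ 2 - 4) ^ 2 := by
        rw [k2]
        ring
      rw [x4, y4] at k4
      linear_combination k4 / 16
    have k5 : w ^ 2 = ((a ^ 2 : ℝ) : ℂ) := by
      push_cast
      refine mul_left_cancel₀ ha4 ?_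
      linear_combination -k1 - k3
    exact hw (omr_sq (sq_nonneg a) k5)

end Pool.Agent.GR
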