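import Pool.Agent.Lib.MP_aa40d3_nt.R2.Int
import Pool.Agent.Lib.MP_aa40d3_nt.R2.OmR
import Pool.Agent.Lib.MP_aa40d3_nt.R2.Cls
import Pool.Agent.Lib.MP_aa40d3_nt.R2.Cliff

/-! The group theoretic theorem in rank two. -/

open Polynomial Matrix

namespace Pool.Agent.GR

variable {n : ℕ}

theorem exists_diag {s : GLr 2} {ζ : ℂ} (h0 : ζ ≠ 0) (hζ : ζ ≠ ζ⁻¹) (hd : s.val.det = 1)
    (ht : tU s = ζ + ζ⁻¹) : ∃ u : GLr 2, (u * s * u⁻¹).val = !![ζ, 0; 0, ζ⁻¹] := by
  have k4 := mul_inv_cancel₀ h0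
  rw [tU_eq] at ht
  rw [det_fin_two] at hd
  have key : ∀ l : ℂ, l = ζ ∨ l = ζ⁻¹ → ∃ v : Fin 2 → ℂ, v ≠ 0 ∧ s.val *ᵥ v = l • v := by
    intro l hl
    obtain ⟨v, hv, e⟩ := (exists_mulVec_eq_zero_iff (M := s.val - l • 1)).2 (by
      rw [det_fin_two]
      simp only [Matrix.sub_apply, Matrix.smul_apply, one_apply_eq, smul_eq_mul, mul_one,
        one_apply_ne (show (0 : Fin 2) ≠ 1 by decide), one_apply_ne (show (1 : Fin 2) ≠ 0 by decide)]
      rcases hl with rfl | rfl
      · linear_combination hd - l * ht - k4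
      · linear_combination hd - ζ⁻¹ * ht - k4)
    rw [sub_mulVec, smul_mulVec, one_mulVec, sub_eq_zero] at e
    exact ⟨v, hv, e⟩
  obtain ⟨v, hv, ev⟩ := key ζ (Or.inl rfl)
  obtain ⟨w, hw, ew⟩ := key ζ⁻¹ (Or.inr rfl)
  have v0 := congrFun ev 0
  have v1 := congrFun ev 1
  have w0 := congrFun ew 0
  have w1 := congrFun ew 1
  simp only [mulVec, dotProduct, Fin.sum_univ_two, Pi.smul_apply, smul_eq_mul] at v0 v1 w0 w1
  have hP : (!![v 0, w 0; v 1, w 1] : Matrix (Fin 2) (Fin 2) ℂ).det ≠ 0 := by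
    rw [det_fin_two_of]
    intro h
    have h3 := sub_ne_zero.2 hζ
    have a1 : v 0 * w 0 = 0 := mul_left_cancel₀ h3 (by
      linear_combination v 0 * w0 - w 0 * v0 - s.val 0 1 * h)
    have a2 : v 1 * w 1 = 0 := mul_left_cancel₀ h3 (by
      linear_combination v 1 * w1 - w 1 * v1 + s.val 1 0 * h)
    have a3 : v 0 * w 1 = 0 := mul_left_cancel₀ h3 (by
      linear_combination v 0 * w1 - w 0 * v1 - (s.val 1 1 - ζ) * h)
    have a4 : v 1 * w 0 = 0 := by linear_combination a3 - h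
    refine hv (funext fun i => ?_)
    by_contra hi
    refine hw (funext fun j => ?_)
    fin_cases i <;> fin_cases j <;> simp_all
  obtain ⟨P, hPe⟩ := (Matrix.isUnit_iff_isUnit_det _).2 hP.isUnit
  refine ⟨P⁻¹, ?_⟩
  rw [inv_inv, mul_assoc, Units.val_mul, Units.inv_mul_eq_iff_eq_mul, Units.val_mul, hPe]
  ext a b
  fin_cases a <;> fin_cases b <;> simp [Matrix.mul_apply, Fin.sum_univ_two] <;>
    first | linear_combination v0 | linear_combination v1 | linear_combination w0 |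
      linear_combination w1

theorem PrimT.line {r : ℕ} {c : Fin n → GLr r} (hP : PrimT (Subgroup.closure (Set.range c)))
    (u : GLr r) (E : Matrix (Fin r) (Fin r) ℂ)
    (h : ∀ i, ∃ a : ℂ, (u * c i * u⁻¹).val * E = a • (E * (u * c i * u⁻¹).val)) :
    ∃ a : ℂ, E = a • (1 : Matrix (Fin r) (Fin r) ℂ) := by
  by_cases hE : E = 0
  · exact ⟨0, by rw [hE, zero_smul]⟩
  have k1 : ∀ γ ∈ Subgroup.closure (Set.range c),
      ∃ a : ℂ, (u * γ * u⁻¹).val * E = a • (E * (u * γ * u⁻¹).val) := by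
    intro γ hγ
    induction hγ using Subgroup.closure_induction with
    | mem x hx =>
      obtain ⟨i, rfl⟩ := hx
      exact h i
    | one => exact ⟨1, by simp⟩
    | mul x y _ _ hx hy =>
      obtain ⟨a, ha⟩ := hx
      obtain ⟨b, hb⟩ := hy
      refine ⟨a * b, ?_⟩
      rw [show u * (x * y) * u⁻¹ = u * x * u⁻¹ * (u * y * u⁻¹) by group, Units.val_mul,
        Matrix.mul_assoc, hb, mul_smul_comm, ← Matrix.mul_assoc, ha, smul_mul_assoc, smul_smul,
        mul_comm b, Matrix.mul_assoc]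
    | inv x _ hx =>
      obtain ⟨a, ha⟩ := hx
      rw [show u * x⁻¹ * u⁻¹ = (u * x * u⁻¹)⁻¹ by group]
      generalize u * x * u⁻¹ = y at ha
      have e : E * (y⁻¹).val = a • ((y⁻¹).val * E) := by
        have := congrArg (fun z => (y⁻¹).val * z * (y⁻¹).val) ha
        simpa only [← Matrix.mul_assoc, Units.inv_mul, one_mul, mul_smul_comm, smul_mul_assoc,
          Units.mul_inv_cancel_right] using this
      have a0 : a ≠ 0 := fun h0 => hE (by
        rw [h0, zero_smul] at e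
        exact (Units.mul_left_eq_zero _).1 e)
      exact ⟨a⁻¹, by rw [e, smul_smul, inv_mul_cancel₀ a0, one_smul]⟩
  obtain ⟨a, ha⟩ := hP (ℂ ∙ ((u⁻¹).val * E * u.val)) (fun γ hγ x hx => by
      obtain ⟨b, rfl⟩ := Submodule.mem_span_singleton.1 hx
      obtain ⟨a, ha⟩ := k1 γ hγ
      refine Submodule.mem_span_singleton.2 ⟨b * a, ?_⟩
      have := congrArg (fun z => (u⁻¹).val * z * (u * γ⁻¹).val) ha
      simp only [Units.val_mul, ← Matrix.mul_assoc, Units.inv_mul, one_mul, mul_smul_comm,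
        smul_mul_assoc, Units.mul_inv_cancel_right, Units.inv_mul_cancel_right] at this
      rw [mul_smul_comm, smul_mul_assoc, ← Matrix.mul_assoc, ← Matrix.mul_assoc, this, smul_smul])
    (fun x hx y hy => by
      obtain ⟨b, rfl⟩ := Submodule.mem_span_singleton.1 hx
      obtain ⟨b', rfl⟩ := Submodule.mem_span_singleton.1 hy
      simp only [mul_smul_comm, smul_mul_assoc, smul_smul, mul_comm b])
    _ (Submodule.mem_span_singleton_self _)
  refine ⟨a, ?_⟩
  have := congrArg (fun z => u.val * z * (u⁻¹).val) ha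
  simpa only [← Matrix.mul_assoc, Units.mul_inv, one_mul, mul_smul_comm, smul_mul_assoc, mul_one,
    Units.mul_inv_cancel_right] using this

theorem tU_map (τ : ℂ →+* ℂ) (x : GLr 2) : tU (mapU τ x) = τ (tU x) := by
  rw [tU_eq, tU_eq, map_add]
  rfl

theorem group_finiteP {g : Fin n → GLr 2} {ε : Fin n → Fin 2 → ℂ} {ρ : Fin n → ℝ} {o : Fin n}
    (hρ : Function.Injective ρ) (hch : ∀ a, (g a).val.charpoly = ∏ j, (X - C (ε a j)))
    (hε : ∀ i k, IsOfFinOrder (ε i k)) (h1 : ∀ i, ε i 0 * ε i 1 = 1) (hne : ε o 0 ≠ ε o 1)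
    (hP : PrimT (Subgroup.closure (Set.range g))) (ho : LoopsP {o} ρ g ε) :
    Finite (Subgroup.closure (Set.range g)) := by
  have hinv : ∀ i, ε i 1 = (ε i 0)⁻¹ := fun i => eq_inv_of_mul_eq_one_right (h1 i)
  have htr : ∀ i, tU (g i) = ε i 0 + ε i 1 := fun i => by
    rw [tU, trace_eq_neg_charpoly_nextCoeff, hch, prod_X_sub_C_nextCoeff, neg_neg, Fin.sum_univ_two]
  have hd : ∀ i, (g i).val.det = 1 := fun i => by
    rw [det_eq_sign_charpoly_coeff, hch, coeff_zero_eq_eval_zero, Fin.prod_univ_two]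
    simpa using h1 i
  have hcy : ∀ i, Cy (tU (g i)) := fun i => ⟨_, hε i 0, by rw [htr, hinv]⟩
  obtain ⟨𝒞, h, c₀, hc₀, hcl⟩ := exists_cl2 hρ ho
  rw [← hcl] at hP ⊢
  have h0 : ε o 0 ≠ 0 := left_ne_zero_of_mul_eq_one (h1 o)
  have hζ : ε o 0 ≠ (ε o 0)⁻¹ := hinv o ▸ hne
  obtain ⟨u, hu⟩ := exists_diag h0 hζ (h.det hd hc₀ o)
    (by rw [tU_isConj (h.conj c₀ hc₀ o), htr, hinv])
  have hc := h.cj c₀ hc₀ u
  have hl := hP.line u
  suffices Finite (Subgroup.closure (Set.range fun i => u * c₀ i * u⁻¹)) by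
    refine Finite.of_injective (fun γ => (⟨u * γ.1 * u⁻¹, ?_⟩ :
      Subgroup.closure (Set.range fun i => u * c₀ i * u⁻¹))) fun γ γ' e => ?_
    · refine (Subgroup.closure_le ((Subgroup.closure _).comap (MulAut.conj u).toMonoidHom)).2 ?_ γ.2
      rintro _ ⟨i, rfl⟩
      exact Subgroup.subset_closure ⟨i, rfl⟩
    · exact Subtype.ext (mul_left_cancel (mul_right_cancel (congrArg Subtype.val e)))
  obtain ⟨c, hce⟩ : ∃ c : Fin n → GLr 2, c = fun i => u * c₀ i * u⁻¹ := ⟨_, rfl⟩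
  have hce' : ∀ i, u * c₀ i * u⁻¹ = c i := fun i => by rw [hce]
  rw [← hce] at hc ⊢
  simp only [hce'] at hl hu
  have dc := h.det hd hc
  have ht : ∀ i, tU (c i) = tU (g i) := fun i => tU_isConj (h.conj c hc i)
  have hq : ∃ l, (c l).val 0 1 ≠ 0 := by
    by_contra! hq
    obtain ⟨a, ha⟩ := hl !![0, 0; 1, 0] fun i => ⟨(c i).val 1 1 ^ 2, by
      have := dc i
      rw [det_fin_two, hq] at this
      ext a b
      fin_cases a <;> fin_cases b <;>
        simp [Matrix.mul_apply, vecMul, dotProduct, Fin.sum_univ_two, hq]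
      linear_combination (-(c i).val 1 1) * this⟩
    simpa using congrFun (congrFun ha 1) 0
  have hr : ∃ l, (c l).val 1 0 ≠ 0 := by
    by_contra! hq
    obtain ⟨a, ha⟩ := hl !![0, 1; 0, 0] fun i => ⟨(c i).val 0 0 ^ 2, by
      have := dc i
      rw [det_fin_two, hq] at this
      ext a b
      fin_cases a <;> fin_cases b <;>
        simp [Matrix.mul_apply, vecMul, dotProduct, Fin.sum_univ_two, hq]
      linear_combination (-(c i).val 0 0) * this⟩
    simpa using congrFun (congrFun ha 0) 1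
  obtain ⟨k, k1, k2⟩ : ∃ k, ((c k).val 0 0 ≠ 0 ∨ (c k).val 1 1 ≠ 0) ∧
      ((c k).val 0 1 ≠ 0 ∨ (c k).val 1 0 ≠ 0) := by
    by_contra! hq
    obtain ⟨a, ha⟩ := hl !![1, 0; 0, -1] fun i => by
      by_cases e : (c i).val 0 0 ≠ 0 ∨ (c i).val 1 1 ≠ 0
      · refine ⟨1, ?_⟩
        ext a b
        fin_cases a <;> fin_cases b <;>
          simp [Matrix.mul_apply, vecMul, dotProduct, Fin.sum_univ_two, (hq i e).1, (hq i e).2]
      · push Not at e
        refine ⟨-1, ?_⟩
        ext a b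
        fin_cases a <;> fin_cases b <;>
          simp [Matrix.mul_apply, vecMul, dotProduct, Fin.sum_univ_two, e.1, e.2]
    have a1 := congrFun (congrFun ha 0) 0
    have a2 := congrFun (congrFun ha 1) 1
    simp only [of_apply, cons_val', cons_val_zero, cons_val_one, cons_val_fin_one,
      Matrix.smul_apply, one_apply_eq, smul_eq_mul, mul_one] at a1 a2
    rw [← a1] at a2
    norm_num at a2
  have hko : k ≠ o := by
    rintro rfl
    simp [hu] at k2
  have hi1 : ∀ i, IsIntegral ℤ (tU (c i)) := fun i => ht i ▸ (hcy i).int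
  have hi2 : ∀ i j, IsIntegral ℤ (tU (c i * c j)) := by
    have hcomm : ∀ i j, tU (c i * c j) = tU (c j * c i) := fun i j => tU_of (c i) (by group)
    have hlt := fun i j => h.pair2 (i := i) (j := j) hρ hd (fun i => (hcy i).int) (hε o 0) hζ hc hu
      hko k1 k2
    intro i j
    by_cases e : i = j
    · have : tU (c i * c j) = tU (c i) * tU (c i) - (1 + 1) := by
        have := dc i
        rw [det_fin_two] at this
        rw [← e, tU_mul, tU_eq]
        linear_combination (-2) * this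
      rw [this]
      exact ((hi1 i).mul (hi1 i)).sub (isIntegral_one.add isIntegral_one)
    by_cases hi : i = o
    · exact hi ▸ (h.cy hd hc fun e' => e (hi.trans e'.symm)).int
    by_cases hj : j = o
    · exact hcomm j i ▸ hj ▸ (h.cy hd hc hi).int
    rcases lt_or_gt_of_ne (hρ.ne e) with p | p
    · exact hlt i j hi hj p
    · exact hcomm j i ▸ hlt j i hj hi p
  refine finite_of_traces hζ hu dc hi1 hi2 hq hr fun τ' γ hγ => ?_
  obtain ⟨τ, hτ⟩ : ∃ τ : ℂ →+* ℂ, ∀ z, τ' z = τ z := ⟨(τ' : ℂ →+* ℂ), fun _ => rfl⟩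
  rw [hτ]
  have e0 : ∀ (x : GLr 2) a b, (mapU τ x).val a b = τ (x.val a b) := fun _ _ _ => rfl
  have hre : ∀ i j, i ≠ o → j ≠ o → ρ i < ρ j → i = k ∨ j = k →
      (tU (mapU τ (c i) * mapU τ (c j))).im = 0 ∧
        (tU (mapU τ (c o) * (mapU τ (c i) * mapU τ (c j)))).im = 0 := by
    intro i j hi hj hij hk
    obtain ⟨Ω, p1, p2, -, p4⟩ := h.om hd hc hi hj hij
    have hrl : ∀ i, Rl (τ (tU (c i))) := fun i => (ht i ▸ (hcy i).map τ).rl
    have := (p1.map τ).real (hrl o) (by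
        rw [ht, htr, hinv, ← map_pow, ← map_ofNat τ 4]
        refine fun e => pow_ne_zero 2 (sub_ne_zero.2 hζ) ?_
        linear_combination τ.injective e - 4 * mul_inv_cancel₀ h0) (hrl i) (hrl j)
      (by
        rintro _ _ _ ⟨⟨x, y, z⟩, hP, hq⟩
        simp only [Prod.mk.injEq] at hq
        obtain ⟨rfl, rfl, rfl⟩ := hq
        exact ⟨((p4 x y z hP).1.map τ).rl, ((p4 x y z hP).2.map τ).rl⟩) ⟨_, p2, rfl⟩
    simp only [map_eq_zero] at this
    rcases this with q | q
    · have : AD (c k).val := by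
        rcases hk with rfl | rfl
        · exact ad_of hζ hu q.1 q.2.2.1
        · exact ad_of hζ hu q.2.1 q.2.2.2
      exact (k1.elim (fun e => e this.1) fun e => e this.2).elim
    · rw [← map_mul, ← map_mul, tU_map, tU_map, ← mul_assoc]
      exact q
  have key := bdd_trace (m := fun i => mapU τ (c i)) (o := o) (k := k) (ζ := τ (ε o 0))
    (τ.toMonoidHom.isOfFinOrder (hε o 0)).norm_eq_one
    (by rw [← map_inv₀]; exact τ.injective.ne hζ)
    (by
      ext a b
      rw [e0, hu]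
      fin_cases a <;> fin_cases b <;> simp)
    (fun i => by
      have := τ.map_det (c i).val
      rw [dc, map_one] at this
      exact this.symm)
    (fun i hi => by
      rw [← map_mul, tU_map, tU_map]
      exact ⟨(ht i ▸ (hcy i).map τ).rl.1, ((h.cy hd hc hi).map τ).rl.1⟩)
    (fun i hi hik => (lt_or_gt_of_ne (hρ.ne hik)).imp (fun p => hre i k hi hko p (Or.inr rfl))
      fun p => hre k i hko hi p (Or.inl rfl))
    (by simpa only [e0, ne_eq, map_eq_zero] using k2)
    (by simpa only [e0, ne_eq, map_eq_zero] using hq)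
    (by simpa only [e0, ne_eq, map_eq_zero] using hr)
    (by
      obtain ⟨l, l0, hl⟩ := weyl2 hko hε hne (h1 o) (h1 k) (x := (c o * c k).val)
        (by rw [Units.val_mul, det_mul, dc, dc, one_mul]) (h.orr c hc k hko).2 τ
      refine ⟨l, l0, ?_⟩
      rw [← hl, ← map_mul, tU_map, tU_map, tU_map, ht, ht, htr, htr]
      simp [kp, tU, map_ofNat])
    (mapU τ γ) (by
      refine (Subgroup.closure_le ((Subgroup.closure _).comap (mapU τ))).2 ?_ hγ
      rintro _ ⟨i, rfl⟩
      exact Subgroup.subset_closure ⟨i, rfl⟩)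
  rwa [tU_map] at key

end Pool.Agent.GR
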