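import Pool.Agent.Lib.MP_aa40d3_nt.MR.Core3
import Pool.Agent.Lib.MP_aa40d3_nt.R2.GMain
import Pool.Agent.Lib.MP_aa40d3_nt.R2.Path4

/-! The theorem in rank two. -/

open Polynomial Matrix Set
open scoped Matrix.Norms.Operator

namespace Pool.Agent.GR

variable {n : ℕ}

theorem two_coef {A : Matrix (Fin 2) (Fin 2) ℂ} {u v : ℂ} (h : A.charpoly = (X - C u) * (X - C v)) :
    A.trace = u + v ∧ A.det = u * v := by
  have h0 := congrArg (eval 0) h
  have h1 := congrArg (eval 1) h
  rw [charpoly_fin_two] at h0 h1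
  simp only [eval_add, eval_sub, eval_mul, eval_pow, eval_X, eval_C] at h0 h1
  exact ⟨by linear_combination h0 - h1, by linear_combination h0⟩

theorem core4 (o : Fin n) {t : Fin n → ℂ} {A : Fin n → Matrix (Fin 2) (Fin 2) ℂ} (ht : Gen {o} t)
    (hre : Function.Injective fun i => (t i).re) (htr : ∀ i, (A i).trace = 0)
    (hq : ∀ z : ℤ, (A o).trace ^ 2 - 4 * (A o).det ≠ (z : ℂ) ^ 2) (hpr : Prim t A) (hpc : PC t A) :
    AlgSol t A := by
  classical
  have hinj : Function.Injective t := fun i j h => hre (by simp only [h])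
  obtain ⟨D, a, hD, hch⟩ := exps_rat2 hinj hpc
  obtain ⟨M, w, θ, hMD, hMa, hZ, hF, hG, hw, hA⟩ :=
    exists_model3 hinj ht hD hch (cycH_ne_zero_of_irred hpr.irred) hpc
  obtain ⟨κ, H0, hκ, hH0, hc, hb⟩ := exists_core {o} t
  generalize hHe : (1 + κ) * H0 = H at hb
  have hH : 0 < H := hHe ▸ mul_pos (by linarith) hH0
  have hwt : (fun i => w (Sum.inl i)) = t := funext hw
  have hmon : mon2 M.toModel2 H (w, θ) = vt (TT t A) (pp t) H := by
    simp only [mon2, hwt, hA]
  have hcham : w ∈ Cham M.m (fun i => (t i).re) H := by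
    refine ⟨by rw [hwt]; exact hb, fun a b hab => ?_⟩
    rw [hw, hw]; exact hab
  have ho : LoopsP {o} (fun i => (t i).re) (vt (TT t A) (pp t) H) M.toModel2.ε := by
    intro μ hμ a b hl hM
    have := path4 M hκ hH0 hHe.le hZ (by rw [hwt]; exact hc) μ hre
      (fun a b _ _ hab => by rw [hw, hw]; exact hab) hμ hl hM (Sl.refl {o} w) hcham hG hF
    rw [hmon] at this
    simpa using this
  have h1 : ∀ i, OrrM M.toModel2.ε {i} (vt (TT t A) (pp t) H i).val := fun i => by
    have := arc3_single M hre i hcham hZ hG hF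
    rwa [hmon] at this
  have hε : ∀ i j, IsOfFinOrder (M.toModel2.ε i j) := fun i j =>
    (algebraicClosure ℚ ℂ).val.toRingHom.toMonoidHom.isOfFinOrder (isOfFinOrder_ez _)
  have hcp : ∀ i, (vt (TT t A) (pp t) H i).val.charpoly = ∏ j, (X - C (M.toModel2.ε i j)) :=
    fun i => orr2_single (hε i) (h1 i).2
  have hD' : (D : ℂ) ≠ 0 := Nat.cast_ne_zero.2 hD.ne'
  have hco : ∀ i, (a i 0 : ℂ) + a i 1 = 0 ∧ (D : ℂ) ^ 2 * (A i).det = a i 0 * a i 1 := fun i => by
    have := two_coef ((hch i).trans (Fin.prod_univ_two _))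
    rw [trace_smul, htr, smul_zero, det_smul, Fintype.card_fin] at this
    exact ⟨this.1.symm, this.2⟩
  have hεe : ∀ i j, M.toModel2.ε i j =
      Complex.exp (2 * Real.pi * Complex.I * ((a i j : ℂ) / D)) := fun i j => by
    simp only [Model2.ε, hMa, hMD]
    push_cast
    rfl
  have hone : ∀ i, M.toModel2.ε i 0 * M.toModel2.ε i 1 = 1 := fun i => by
    rw [hεe, hεe, ← Complex.exp_add, ← mul_add, ← add_div, (hco i).1, zero_div, mul_zero,
      Complex.exp_zero]
  have hne : M.toModel2.ε o 0 ≠ M.toModel2.ε o 1 := by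
    rw [hεe, hεe]
    intro h
    obtain ⟨z, hz⟩ := Complex.exp_eq_exp_iff_exists_int.1 h
    have h2 : (a o 0 : ℂ) / D - a o 1 / D = z :=
      mul_left_cancel₀ Complex.two_pi_I_ne_zero (by linear_combination hz)
    refine hq z (mul_left_cancel₀ (pow_ne_zero 2 hD') ?_)
    rw [← h2, htr]
    field_simp
    linear_combination (-4) * (hco o).2 - ((a o 0 : ℂ) + a o 1) * (hco o).1
  obtain ⟨E, hE, hgE⟩ : ∃ E : ℕ, 0 < E ∧ ∀ i, (vt (TT t A) (pp t) H i).val ^ E = 1 := by
    choose k hk0 hk using fun i => isOfFinOrder_iff_pow_eq_one.1 (h1 i).1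
    refine ⟨∏ i, k i, Finset.prod_pos fun i _ => hk0 i, fun i => ?_⟩
    obtain ⟨c, hc⟩ := Finset.dvd_prod_of_mem k (Finset.mem_univ i)
    rw [hc, pow_mul, hk, one_pow]
  set U : Set ℂ := {x | ∀ i, x.im < (t i).im} with hU
  have hUo : IsOpen U := by
    rw [hU, ofPred_forall]
    exact isOpen_iInter_of_finite fun i => isOpen_lt Complex.continuous_im continuous_const
  have hUc : Convex ℝ U := by
    rw [hU, ofPred_forall]
    exact convex_iInter fun i => convex_halfSpace_im_lt _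
  have hx₀ : cpt (-H, -H) ∈ U := fun i => by
    have := (hb i).2
    simp only [pp, cpt] at this ⊢
    exact (abs_lt.1 this).1
  have hY : ∀ x ∈ U, (∀ i, x ≠ t i) ∧ (T t A (cpt (-H, -H)) x).det ≠ 0 ∧
      HasDerivAt (T t A (cpt (-H, -H))) (sys t A x * T t A (cpt (-H, -H)) x) x := by
    intro x hx
    refine ⟨fun i h => lt_irrefl _ (h ▸ hx i), ?_, hasDerivAt_T A fun i hi => ?_⟩
    · exact ((Matrix.isUnit_iff_isUnit_det _).1 (isUnit_Tr _)).ne_zero
    · exact lt_irrefl _ (hUc.segment_subset hx₀ hx hi i)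
  have hext := extProp hre A hH.le hb
  have hi : PrimT (Subgroup.closure (Set.range (vt (TT t A) (pp t) H))) :=
    primT_of_prim hpr hE hgE hUo hx₀ (T_self _ _ _) hY hext
  have hfin : Finite (Subgroup.closure (Set.range (vt (TT t A) (pp t) H))) :=
    group_finiteP hre hcp hε hone hne hi ho
  obtain ⟨ε, hε, hball⟩ := Metric.isOpen_iff.1 hUo _ hx₀
  refine ⟨cpt (-H, -H), ε, T t A (cpt (-H, -H)), hε, fun x hx => ?_, fun a b => ?_⟩
  · obtain ⟨h1, h2, h3⟩ := hY x (hball hx)
    exact ⟨h1, h2, hasDerivAt_mat.1 h3⟩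
  · obtain ⟨P, hP, h⟩ := alg_of_finite hfin hext a b
    exact ⟨P, hP, fun x hx => h x (hball hx)⟩

theorem final4 (n : ℕ) (R : Type) [CommRing R] [Algebra.FiniteType ℤ R] (ι : R →+* ℂ)
    (hι : Function.Injective ι) (t : Fin n → R) (A : Fin n → Matrix (Fin 2) (Fin 2) R) (o : Fin n)
    (ht : Function.Injective t)
    (ho : Transcendental (IntermediateField.adjoin ℚ {x : ℂ | ∃ j, j ≠ o ∧ x = ι (t j)}) (ι (t o)))
    (he : ∃ lam mu : ℂ, (∀ z : ℤ, mu - lam ≠ z) ∧
      ((A o).map ι).charpoly = (X - C mu) * (X - C lam))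
    (hpr : Prim (fun i => ι (t i)) fun i => (A i).map ι)
    (hp : ∀ m : Ideal R, m.IsMaximal →
      HasFund (fun i => Ideal.Quotient.mk m (t i)) fun i => (A i).map (Ideal.Quotient.mk m))
    (φ : R →+* ℂ) : AlgSol (fun i => φ (t i)) fun i => (A i).map φ := by
  classical
  have hinj : Function.Injective fun i => ι (t i) := hι.comp ht
  have hgen : Gen {o} fun i => ι (t i) := by
    refine ⟨(IntermediateField.adjoin ℚ {x : ℂ | ∃ j, j ≠ o ∧ x = ι (t j)}).toSubalgebra.toSubring,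
      fun j hj => IntermediateField.subset_adjoin ℚ _ ⟨j, by simpa using hj, rfl⟩, ?_⟩
    have : Unique ({o} : Finset (Fin n)) := Finset.instUniqueSubtypeMemSingleton o
    refine algebraicIndependent_unique_type_iff.2 ?_
    rw [Finset.mem_singleton.1 (default : ({o} : Finset (Fin n))).2]
    exact ho
  obtain ⟨t', c, hc, htt, hgen', hre⟩ := exists_rotation3 hinj hgen
  have hpc := pc_of_max ι hι hp
  obtain ⟨D, a', hD, hch⟩ := exps_rat2 hinj hpc
  have hb' : ∀ i, ((2 * D : ℕ) : ℂ) * (((A i).map ι).trace / 2) = (a' i 0 + a' i 1 : ℤ) := fun i => by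
    have := (two_coef ((hch i).trans (Fin.prod_univ_two _))).1
    rw [trace_smul, smul_eq_mul] at this
    push_cast
    linear_combination this
  have hD2 : 0 < 2 * D := by omega
  refine AlgSol.spec ι φ hι t A (AlgSol.twist hD2 hb' (AlgSol.aff hc htt (core4 o hgen' hre
    (fun i => ?_) (fun z hz => ?_) ((hpr.twist _).aff hc htt) ((hpc.twist hD2 hb').aff hc htt))))
  · rw [trace_sub, trace_smul, trace_one, Fintype.card_fin, smul_eq_mul]
    push_cast
    ring
  · obtain ⟨lam, mu, h1, h2⟩ := he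
    obtain ⟨h3, h4⟩ := two_coef h2
    generalize (A o).map ι = B at hz h3 h4
    simp only [trace_fin_two, det_fin_two, Matrix.sub_apply, Matrix.smul_apply, one_apply_eq,
      one_apply_ne (show (0 : Fin 2) ≠ 1 by decide), one_apply_ne (show (1 : Fin 2) ≠ 0 by decide),
      smul_eq_mul] at hz h3 h4
    have h5 : (mu - lam - z) * (mu - lam - (-z : ℤ)) = 0 := by
      push_cast
      linear_combination hz - (B 0 0 + B 1 1 + (mu + lam)) * h3 + 4 * h4
    rcases mul_eq_zero.1 h5 with h6 | h6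
    · exact h1 _ (sub_eq_zero.1 h6)
    · exact h1 _ (sub_eq_zero.1 h6)

end Pool.Agent.GR
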