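import Pool.Agent.Lib.MP_aa40d3_nt.R2.Defs

/-! Integral points of the Fricke cubic. -/

namespace Pool.Agent.GR

/-- A module of algebraic integers of a number field is finitely generated. -/
theorem fg_of_int (K : IntermediateField ℚ ℂ) [FiniteDimensional ℚ K] (N : Submodule ℤ ℂ)
    (h : ∀ u ∈ N, u ∈ K ∧ IsIntegral ℤ u) : N.FG := by
  have : NumberField K := {}
  let φ : NumberField.RingOfIntegers K →ₗ[ℤ] ℂ :=
    AddMonoidHom.toIntLinearMap
      ((algebraMap K ℂ).comp (algebraMap (NumberField.RingOfIntegers K) K)).toAddMonoidHom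
  have h1 : N ≤ LinearMap.range φ := fun u hu =>
    ⟨⟨⟨u, (h u hu).1⟩, (isIntegral_algebraMap_iff (algebraMap K ℂ).injective).1 (h u hu).2⟩, rfl⟩
  rw [← Submodule.map_comap_eq_self h1]
  exact (IsNoetherian.noetherian _).map φ

theorem omi_eq {u v : ℂ} (h : IsIntegral ℤ u) (e : u = v) : IsIntegral ℤ v := e ▸ h

theorem omi_pow {z d : ℂ} (hd : d ≠ 0) (h : ∀ n : ℕ, IsIntegral ℤ (z ^ n * d)) :
    IsIntegral ℤ z := by
  have h0 : IsIntegral ℚ d := by simpa using (h 0).tower_top (A := ℚ)
  have h1 : IsIntegral ℚ z := by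
    have h2 := ((h 1).tower_top (A := ℚ)).mul h0.inv
    rwa [pow_one, mul_inv_cancel_right₀ hd] at h2
  have : FiniteDimensional ℚ (IntermediateField.adjoin ℚ ({z, d} : Set ℂ)) :=
    IntermediateField.finiteDimensional_adjoin (by
      rintro u (rfl | rfl)
      exacts [h1, h0])
  have hz : z ∈ IntermediateField.adjoin ℚ ({z, d} : Set ℂ) :=
    IntermediateField.subset_adjoin _ _ (by simp)
  have hd' : d ∈ IntermediateField.adjoin ℚ ({z, d} : Set ℂ) :=
    IntermediateField.subset_adjoin _ _ (by simp)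
  refine isIntegral_of_smul_mem_submodule (Submodule.span ℤ (Set.range fun n : ℕ => z ^ n * d))
    (fun k => hd ?_) (fg_of_int (IntermediateField.adjoin ℚ ({z, d} : Set ℂ)) _ fun u hu => ?_) z
    fun u hu => ?_
  · have h2 : d ∈ Submodule.span ℤ (Set.range fun n : ℕ => z ^ n * d) :=
      Submodule.subset_span ⟨0, by simp⟩
    rwa [k, Submodule.mem_bot] at h2
  · induction hu using Submodule.span_induction with
    | mem u hu =>
      obtain ⟨n, rfl⟩ := hu
      exact ⟨mul_mem (pow_mem hz n) hd', h n⟩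
    | zero => exact ⟨zero_mem _, isIntegral_zero⟩
    | add u v _ _ hu hv => exact ⟨add_mem hu.1 hv.1, hu.2.add hv.2⟩
    | smul c u _ hu => exact ⟨zsmul_mem hu.1 c, hu.2.smul c⟩
  · induction hu using Submodule.span_induction with
    | mem u hu =>
      obtain ⟨n, rfl⟩ := hu
      exact Submodule.subset_span ⟨n + 1, by simp only [smul_eq_mul]; ring⟩
    | zero => simp
    | add u v _ _ hu hv =>
      rw [smul_add]
      exact add_mem hu hv
    | smul c u _ hu =>
      rw [smul_comm]
      exact Submodule.smul_mem _ c hu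

/-- Suppose one of the two differences `2 x - (A - y z)`, `2 y - (B - x z)` is not zero. For a
point `(x, y, z)` with flips `x'`, `y'` one has `z * (y - y') = (x - x₁) - (x - x₂)` where `x₁`,
`x₂` are the flips of `x` at `(x, y, z)` and at `(x, y', z)`; symmetrically for `x - x'`. So `z`,
`A = x + x' + y z`, `B` are algebraic, `K = ℚ(x, y, z, A, B)` is a number field, the set of points
of `Ω` with third coordinate `z` and `x, y ∈ K` is closed under the first two flips, the span
`N` over `ℤ` of the differences `x - x'`, `y - y'` is finitely generated (`fg_of_int`), not zero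
and stable under `z`: `isIntegral_of_smul_mem_submodule`. -/
theorem Om.fixed {a b e w : ℂ} {Ω : Set (ℂ × ℂ × ℂ)} (h : Om a b e w Ω)
    (hΩ : ∀ x y z, (x, y, z) ∈ Ω → IsIntegral ℤ x ∧ IsIntegral ℤ y)
    {x y z : ℂ} (hP : (x, y, z) ∈ Ω) (hz : ¬IsIntegral ℤ z) :
    2 * x = a * b + e * w - y * z ∧ 2 * y = a * e + b * w - x * z := by
  have key : ∀ (n : ℕ) (x y : ℂ), (x, y, z) ∈ Ω →
      IsIntegral ℤ (z ^ n * (2 * x - (a * b + e * w - y * z))) ∧
        IsIntegral ℤ (z ^ n * (2 * y - (a * e + b * w - x * z))) := by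
    intro n
    induction n with
    | zero =>
      intro x y hP
      constructor
      · exact omi_eq ((hΩ _ _ _ hP).1.sub (hΩ _ _ _ (h.fx _ _ _ hP)).1) (by ring)
      · exact omi_eq ((hΩ _ _ _ hP).2.sub (hΩ _ _ _ (h.fy _ _ _ hP)).2) (by ring)
    | succ n ih =>
      intro x y hP
      constructor
      · exact omi_eq ((ih _ _ hP).2.sub (ih _ _ (h.fx _ _ _ hP)).2) (by ring)
      · exact omi_eq ((ih _ _ hP).1.sub (ih _ _ (h.fy _ _ _ hP)).1) (by ring)
  constructor
  · by_contra k
    exact hz (omi_pow (sub_ne_zero.2 k) fun n => (key n x y hP).1)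
  · by_contra k
    exact hz (omi_pow (sub_ne_zero.2 k) fun n => (key n x y hP).2)

/-- A root of a monic quadratic with integral coefficients. -/
theorem int_quad {x p q : ℂ} (hp : IsIntegral ℤ p) (hq : IsIntegral ℤ q)
    (h : x ^ 2 + p * x + q = 0) : IsIntegral ℤ x := by
  refine isIntegral_trans (A := integralClosure ℤ ℂ) x
    ⟨Polynomial.X ^ 2 + Polynomial.C ⟨p, hp⟩ * Polynomial.X + Polynomial.C ⟨q, hq⟩,
      by monicity!, ?_⟩
  simpa [Polynomial.eval₂_add, Polynomial.eval₂_mul] using h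

/-- Lemma I of the blueprint. -/
theorem Om.int {a b e w : ℂ} {Ω : Set (ℂ × ℂ × ℂ)} (h : Om a b e w Ω) (ha : IsIntegral ℤ a)
    (hb : IsIntegral ℤ b) (he : IsIntegral ℤ e)
    (hΩ : ∀ x y z, (x, y, z) ∈ Ω → IsIntegral ℤ x ∧ IsIntegral ℤ y)
    {x y z : ℂ} (hP : (x, y, z) ∈ Ω) :
    (b = 0 ∧ e = 0 ∧ x = 0 ∧ y = 0) ∨ IsIntegral ℤ z ∨
      (2 * z = b * e + a * w - x * y ∧ kp a b x = 0 ∧ kp a e y = 0) := by
  by_cases hz : IsIntegral ℤ z
  · exact Or.inr (Or.inl hz)
  obtain ⟨hx, hy⟩ := hΩ x y z hP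
  have h4 : IsIntegral ℤ (4 : ℂ) := by exact_mod_cast isIntegral_algebraMap (x := (4 : ℤ))
  have hc := h.cub x y z hP
  have hw : ¬IsIntegral ℤ w := fun hw => hz (int_quad
    ((hx.mul hy).sub ((hb.mul he).add (ha.mul hw)))
    (((((hx.pow 2).add (hy.pow 2)).sub (((ha.mul hb).add (he.mul hw)).mul hx)).sub
      (((ha.mul he).add (hb.mul hw)).mul hy)).sub (((((h4.sub (ha.pow 2)).sub (hb.pow 2)).sub
        (he.pow 2)).sub (hw.pow 2)).sub (((ha.mul hb).mul he).mul hw)))
    (by unfold fr at hc; linear_combination hc))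
  obtain ⟨f1, f2⟩ := h.fixed hΩ hP hz
  have hP' := h.fz x y z hP
  obtain ⟨z', hz'⟩ : ∃ z', z' = b * e + a * w - x * y - z := ⟨_, rfl⟩
  rw [← hz'] at hP'
  have hn : ¬IsIntegral ℤ z' := fun k => by
    have hA : IsIntegral ℤ (e * w) :=
      omi_eq ((((hΩ _ _ _ (h.fx _ _ _ hP')).1.add hx).add (hy.mul k)).sub (ha.mul hb))
        (by ring)
    have hB : IsIntegral ℤ (b * w) :=
      omi_eq ((((hΩ _ _ _ (h.fy _ _ _ hP')).2.add hy).add (hx.mul k)).sub (ha.mul he))
        (by ring)
    have hc' := h.cub x y z' hP'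
    exact hw (int_quad (ha.mul k).neg
      ((((((((hx.pow 2).add (hy.pow 2)).add (k.pow 2)).add ((hx.mul hy).mul k)).sub
        (((ha.mul hb).add hA).mul hx)).sub (((ha.mul he).add hB).mul hy)).sub
          ((hb.mul he).mul k)).sub ((((h4.sub (ha.pow 2)).sub (hb.pow 2)).sub (he.pow 2)).sub
            ((ha.mul hb).mul hA)))
      (by unfold fr at hc'; linear_combination hc'))
  obtain ⟨g1, g2⟩ := h.fixed hΩ hP' hn
  by_cases hzz : z = z'
  · have f3 : 2 * z = b * e + a * w - x * y := by linear_combination hzz + hz'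
    have e1 : 2 * x + y * z - (a * b + e * w) = 0 := by linear_combination f1
    have e2 : 2 * y + x * z - (a * e + b * w) = 0 := by linear_combination f2
    have e3 : 2 * z + x * y - (b * e + a * w) = 0 := by linear_combination f3
    have k1 := fr_x a b e w x y z
    have k2 := fr_y a b e w x y z
    rw [hc, e2, e3] at k1
    rw [hc, e1, e3] at k2
    have k3 : kp a b x * kp e w x = 0 := by linear_combination k1
    have k4 : kp a e y * kp b w y = 0 := by linear_combination k2
    refine Or.inr (Or.inr ⟨f3, (mul_eq_zero.1 k3).resolve_right fun k => hw ?_,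
      (mul_eq_zero.1 k4).resolve_right fun k => hw ?_⟩)
    · exact int_quad (he.mul hx).neg (((hx.pow 2).add (he.pow 2)).sub h4)
        (by unfold kp at k; linear_combination k)
    · exact int_quad (hb.mul hy).neg (((hy.pow 2).add (hb.pow 2)).sub h4)
        (by unfold kp at k; linear_combination k)
  · have hne := sub_ne_zero.2 hzz
    have x0 : x = 0 := (mul_eq_zero.1 (show x * (z - z') = 0 by
      linear_combination f2 - g2)).resolve_right hne
    have y0 : y = 0 := (mul_eq_zero.1 (show y * (z - z') = 0 by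
      linear_combination f1 - g1)).resolve_right hne
    have hd : w ^ 2 - a ^ 2 ≠ 0 := fun k =>
      hw (int_quad isIntegral_zero (ha.pow 2).neg (by linear_combination k))
    rw [x0, y0] at f1 f2
    exact Or.inl ⟨(mul_eq_zero.1 (show b * (w ^ 2 - a ^ 2) = 0 by
      linear_combination a * f1 - w * f2)).resolve_right hd,
      (mul_eq_zero.1 (show e * (w ^ 2 - a ^ 2) = 0 by
        linear_combination a * f2 - w * f1)).resolve_right hd, x0, y0⟩

end Pool.Agent.GR
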