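import Pool.Agent.Lib.MP_aa40d3_nt.R2.Unit
import Pool.Agent.Lib.MP_aa40d3_nt.R2.OmI

/-! The traces of the pairs are algebraic integers. -/

open Polynomial Matrix

namespace Pool.Agent.GR

variable {n : ℕ}

theorem ad_of {s x : GLr 2} {ζ : ℂ} (hζ : ζ ≠ ζ⁻¹) (hs : s.val = !![ζ, 0; 0, ζ⁻¹])
    (h1 : tU x = 0) (h2 : tU (s * x) = 0) : AD x.val := by
  rw [tU_eq] at h1
  rw [tU_diag hs] at h2
  have h3 := sub_ne_zero.2 hζ
  exact ⟨mul_left_cancel₀ h3 (by linear_combination h2 - ζ⁻¹ * h1),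
    mul_left_cancel₀ h3 (by linear_combination ζ * h1 - h2)⟩

theorem diag_cj {s : GLr 2} {ζ : ℂ} (h0 : ζ ≠ 0) (hs : s.val = !![ζ, 0; 0, ζ⁻¹]) (x : GLr 2) :
    (s * x * s⁻¹).val = !![x.val 0 0, ζ ^ 2 * x.val 0 1; ζ⁻¹ ^ 2 * x.val 1 0, x.val 1 1] := by
  have h1 : s.val.det = 1 := by simp [hs, h0]
  rw [Units.val_mul, Units.val_mul, inv_adj h1, hs, adjugate_fin_two]
  ext a b
  fin_cases a <;> fin_cases b <;> simp [Matrix.mul_apply, vecMul, dotProduct, Fin.sum_univ_two] <;>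
    field_simp

theorem tU_mul (x y : GLr 2) : tU (x * y) = x.val 0 0 * y.val 0 0 + x.val 0 1 * y.val 1 0 +
    (x.val 1 0 * y.val 0 1 + x.val 1 1 * y.val 1 1) := by
  simp only [tU_eq, Units.val_mul, Matrix.mul_apply, Fin.sum_univ_two]

theorem int_of {x y : GLr 2} (h : IsIntegral ℤ (tU x)) (u : GLr 2) (e : y = u * x * u⁻¹) :
    IsIntegral ℤ (tU y) := (tU_of u e).symm ▸ h

theorem int_split {u v : ℂ} (h : u * v = 1) (hi : IsIntegral ℤ (u + v)) :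
    IsIntegral ℤ u ∧ IsIntegral ℤ v :=
  ⟨int_quad hi.neg isIntegral_one (by linear_combination -h),
    int_quad hi.neg isIntegral_one (by linear_combination -h)⟩

theorem ad_two {u x y : GLr 2} (hu : u.val.det = 1) (hx : x.val.det = 1) (hy : y.val.det = 1)
    (h1 : u.val 0 0 ≠ 0 ∨ u.val 1 1 ≠ 0) (h2 : u.val 0 1 ≠ 0 ∨ u.val 1 0 ≠ 0) (a1 : AD x.val)
    (a2 : AD y.val) (a3 : AD (u * x * u⁻¹).val) (a4 : AD (u * y * u⁻¹).val) :
    IsIntegral ℤ (tU (x * y)) := by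
  have b3 := a3.1
  have b4 := a4.1
  simp only [Units.val_mul, inv_adj hu, adjugate_fin_two, Matrix.mul_apply, Fin.sum_univ_two,
    of_apply, cons_val', cons_val_zero, cons_val_one, cons_val_fin_one, a1.1, a1.2, a2.1,
    a2.2] at b3 b4
  rw [det_fin_two] at hu hx hy
  rw [a1.1, a1.2] at hx
  rw [a2.1, a2.2] at hy
  rw [tU_mul, a1.1, a1.2]
  have h3 : x.val 0 1 * y.val 1 0 = x.val 1 0 * y.val 0 1 := by
    by_contra hne
    have h4 := sub_ne_zero.2 hne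
    have h5 : u.val 0 1 * u.val 1 1 = 0 :=
      mul_right_cancel₀ h4 (by linear_combination x.val 0 1 * b4 - y.val 0 1 * b3)
    have h6 : u.val 0 0 * u.val 1 0 = 0 :=
      mul_right_cancel₀ h4 (by linear_combination x.val 1 0 * b4 - y.val 1 0 * b3)
    rcases mul_eq_zero.1 h5 with k1 | k1 <;> rcases mul_eq_zero.1 h6 with k2 | k2
    · simp [k1, k2] at hu
    · simp [k1, k2] at h2
    · simp [k1, k2] at h1
    · simp [k1, k2] at hu
  refine int_quad (p := 0) (q := -4) isIntegral_zero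
    (by exact_mod_cast isIntegral_algebraMap (x := (-4 : ℤ))) ?_
  linear_combination (x.val 0 1 * y.val 1 0 - x.val 1 0 * y.val 0 1) * h3 -
    4 * (y.val 0 1 * y.val 1 0) * hx + 4 * hy

variable {ρ : Fin n → ℝ} {o : Fin n} {g : Fin n → GLr 2} {ε : Fin n → Fin 2 → ℂ}
  {𝒞 : Set (Fin n → GLr 2)} {ζ : ℂ}

theorem Cl2.pair1 (h : Cl2 ρ o g ε 𝒞) (hd : ∀ i, (g i).val.det = 1)
    (hg : ∀ i, IsIntegral ℤ (tU (g i))) (h0 : ζ ≠ 0) (hζ : ζ ≠ ζ⁻¹) {c : Fin n → GLr 2}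
    (hc : c ∈ 𝒞) (ho : (c o).val = !![ζ, 0; 0, ζ⁻¹]) {i j : Fin n} (hi : i ≠ o) (hj : j ≠ o)
    (hij : ρ i < ρ j) : (AD (c i).val ∧ AD (c j).val) ∨
      (IsIntegral ℤ (tU (c i * c j)) ∧ IsIntegral ℤ (tU (c o * c i * (c o)⁻¹ * c j))) := by
  have ht : ∀ k, IsIntegral ℤ (tU (c k)) := fun k => tU_isConj (h.conj c hc k) ▸ hg k
  obtain ⟨Ω, h1, h2, h3, h4⟩ := h.om hd hc hi hj hij
  have h5 : ∀ x y z, (x, y, z) ∈ Ω → IsIntegral ℤ x ∧ IsIntegral ℤ y := fun x y z hP =>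
    ⟨(h4 x y z hP).1.int, (h4 x y z hP).2.int⟩
  have hz := tU_z (c := c i) (d := c j) (h.det hd hc o)
  have hA : tU (c i) = 0 ∧ tU (c j) = 0 ∧ tU (c o * c i) = 0 ∧ tU (c o * c j) = 0 →
      AD (c i).val ∧ AD (c j).val := fun k =>
    ⟨ad_of hζ ho k.1 k.2.2.1, ad_of hζ ho k.2.1 k.2.2.2⟩
  have hS : tU (c o * c i * (c o)⁻¹ * c j) = tU (c i * c j) →
      kp (tU (c o)) (tU (c i)) (tU (c o * c i)) = 0 →
      kp (tU (c o)) (tU (c j)) (tU (c o * c j)) = 0 → IsIntegral ℤ (tU (c i * c j)) := by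
    intro k1 k2 k3
    have k0 : -(ζ - ζ⁻¹) ^ 2 ≠ 0 := neg_ne_zero.2 (pow_ne_zero _ (sub_ne_zero.2 hζ))
    rw [kp_diag h0 ho (h.det hd hc _), mul_eq_zero, or_iff_right k0] at k2 k3
    have d1 := h.det hd hc i
    have d2 := h.det hd hc j
    rw [det_fin_two] at d1 d2
    rw [k2, sub_zero] at d1
    rw [k3, sub_zero] at d2
    obtain ⟨p1, p2⟩ := int_split d1 (tU_eq (c i) ▸ ht i)
    obtain ⟨p3, p4⟩ := int_split d2 (tU_eq (c j) ▸ ht j)
    rw [tU_mul, tU_mul, diag_cj h0 ho] at k1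
    simp only [of_apply, cons_val', cons_val_zero, cons_val_one, cons_val_fin_one] at k1
    have k4 := mul_inv_cancel₀ h0
    have k5 : (ζ - ζ⁻¹) * (ζ * ((c i).val 0 1 * (c j).val 1 0) -
        ζ⁻¹ * ((c i).val 1 0 * (c j).val 0 1)) = 0 := by
      linear_combination k1 -
        ((c i).val 0 1 * (c j).val 1 0 + (c i).val 1 0 * (c j).val 0 1) * k4
    have k6 := (mul_eq_zero.1 k5).resolve_left (sub_ne_zero.2 hζ)
    have k7 : (c i).val 0 1 * (c j).val 1 0 = 0 := by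
      have : ζ * ((c i).val 0 1 * (c j).val 1 0) ^ 2 = 0 := by
        linear_combination (c i).val 0 1 * (c j).val 1 0 * k6 +
          ζ⁻¹ * ((c j).val 0 1 * (c j).val 1 0) * k2
      exact pow_eq_zero_iff two_ne_zero |>.1 ((mul_eq_zero.1 this).resolve_left h0)
    have k8 : (c i).val 1 0 * (c j).val 0 1 = 0 := by
      rw [k7, mul_zero, zero_sub, neg_eq_zero] at k6
      exact (mul_eq_zero.1 k6).resolve_left (inv_ne_zero h0)
    rw [tU_mul, k7, k8, add_zero, zero_add]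
    exact (p1.mul p3).add (p2.mul p4)
  rcases h1.int (ht o) (ht i) (ht j) h5 h2 with k | k | k
  · exact Or.inl (hA k)
  · rcases h1.int (ht o) (ht i) (ht j) h5 h3 with k' | k' | k'
    · exact Or.inl (hA k')
    · exact Or.inr ⟨k, k'⟩
    · have e : tU (c o * c i * (c o)⁻¹ * c j) = tU (c i * c j) := by
        linear_combination k'.1 - hz
      exact Or.inr ⟨k, e ▸ k⟩
  · have e : tU (c o * c i * (c o)⁻¹ * c j) = tU (c i * c j) := by
      linear_combination hz - k.1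
    exact Or.inr ⟨hS e k.2.1 k.2.2, e ▸ hS e k.2.1 k.2.2⟩

theorem AD.cj {s x : GLr 2} (h0 : ζ ≠ 0) (hs : s.val = !![ζ, 0; 0, ζ⁻¹]) :
    AD (s * x * s⁻¹).val ↔ AD x.val := by
  rw [diag_cj h0 hs]
  simp [AD]

theorem ad_flip {s x y : GLr 2} (hζ : IsOfFinOrder ζ) (hs : s.val = !![ζ, 0; 0, ζ⁻¹])
    (hx : x.val.det = 1) (hy : y.val.det = 1) (a1 : AD x.val) (a2 : AD y.val)
    (h : IsIntegral ℤ (tU (s * x * s⁻¹ * y))) : IsIntegral ℤ (tU (x * y)) := by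
  have h0 : ζ ≠ 0 := fun h => by simpa [h] using hζ.norm_eq_one
  have k4 := mul_inv_cancel₀ h0
  rw [det_fin_two] at hx hy
  rw [a1.1, a1.2] at hx
  rw [a2.1, a2.2] at hy
  rw [tU_mul, diag_cj h0 hs] at h
  simp only [of_apply, cons_val', cons_val_zero, cons_val_one, cons_val_fin_one, a1.1, a1.2,
    zero_mul, zero_add, add_zero] at h
  obtain ⟨p1, p2⟩ := int_split (by
    linear_combination (ζ * ζ⁻¹ + 1) * (x.val 0 1 * x.val 1 0 * (y.val 0 1 * y.val 1 0)) * k4 -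
      y.val 0 1 * y.val 1 0 * hx + hy) h
  have e : tU (x * y) = ζ⁻¹ ^ 2 * (ζ ^ 2 * x.val 0 1 * y.val 1 0) +
      ζ ^ 2 * (ζ⁻¹ ^ 2 * x.val 1 0 * y.val 0 1) := by
    rw [tU_mul, a1.1, a1.2]
    linear_combination (-(ζ * ζ⁻¹ + 1) * (x.val 0 1 * y.val 1 0 + x.val 1 0 * y.val 0 1)) * k4
  rw [e]
  exact (((gint_finOrder (finOrd_inv hζ)).pow 2).mul p1).add (((gint_finOrder hζ).pow 2).mul p2)

theorem Cl2.pair2 (h : Cl2 ρ o g ε 𝒞) (hρ : Function.Injective ρ) (hd : ∀ i, (g i).val.det = 1)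
    (hg : ∀ i, IsIntegral ℤ (tU (g i))) (hf : IsOfFinOrder ζ) (hζ : ζ ≠ ζ⁻¹) {c : Fin n → GLr 2}
    (hc : c ∈ 𝒞) (ho : (c o).val = !![ζ, 0; 0, ζ⁻¹]) {k : Fin n} (hk : k ≠ o)
    (h1 : (c k).val 0 0 ≠ 0 ∨ (c k).val 1 1 ≠ 0) (h2 : (c k).val 0 1 ≠ 0 ∨ (c k).val 1 0 ≠ 0)
    {i j : Fin n} (hi : i ≠ o) (hj : j ≠ o) (hij : ρ i < ρ j) : IsIntegral ℤ (tU (c i * c j)) := by
  have h0 : ζ ≠ 0 := fun h => by simpa [h] using hf.norm_eq_one
  rcases h.pair1 hd hg h0 hζ hc ho hi hj hij with ⟨a1, a2⟩ | a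
  swap
  · exact a.1
  have hik : i ≠ k := fun e => h1.elim (fun q => q (e ▸ a1.1)) fun q => q (e ▸ a1.2)
  have hjk : j ≠ k := fun e => h1.elim (fun q => q (e ▸ a2.1)) fun q => q (e ▸ a2.2)
  have dk := h.det hd hc k
  have di := h.det hd hc i
  have dj := h.det hd hc j
  have di' := (det_isConj (isConj_iff.2 ⟨c o, rfl⟩)).trans di
  have dj' := (det_isConj (isConj_iff.2 ⟨c o, rfl⟩)).trans dj
  have a1' := (AD.cj h0 ho).2 a1
  have a2' := (AD.cj h0 ho).2 a2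
  have key := h.pair1 hd hg h0 hζ (h.tw c hc k hk 1) (by rw [Tw_o, ho]) hi hj hij
  have e1 : ∀ x : GLr 2, (c k * c o) ^ (1 : ℤ) * x * ((c k * c o) ^ (1 : ℤ))⁻¹ =
      c k * (c o * x * (c o)⁻¹) * (c k)⁻¹ := fun x => by group
  have e2 : ∀ x : GLr 2, (c o * c k) ^ (1 : ℤ) * x * ((c o * c k) ^ (1 : ℤ))⁻¹ =
      c o * (c k * x * (c k)⁻¹) * (c o)⁻¹ := fun x => by group
  rcases lt_or_gt_of_ne (hρ.ne hik) with p | p
  · rcases lt_or_gt_of_ne (hρ.ne hjk) with q | q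
    · rw [Tw_lt hi p, Tw_lt hj q, e1, e1] at key
      rcases key with a | a
      · exact int_of (ad_two dk di' dj' h1 h2 a1' a2' a.1 a.2) (c o)⁻¹ (by group)
      · exact int_of a.1 (c k * c o)⁻¹ (by group)
    · rw [Tw_lt hi p, Tw_gt hj q, e1, e2, AD.cj h0 ho, Tw_o] at key
      refine ad_flip hf ho di dj a1 a2 ?_
      rcases key with a | a
      · exact ad_two dk di' dj h1 h2 a1' a2 a.1 a.2
      · exact int_of a.2 (c o * c k)⁻¹ (by group)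
  · rw [Tw_gt hi p, Tw_gt hj (p.trans hij), e2, e2, AD.cj h0 ho, AD.cj h0 ho] at key
    rcases key with a | a
    · exact ad_two dk di dj h1 h2 a1 a2 a.1 a.2
    · exact int_of a.1 (c o * c k)⁻¹ (by group)

end Pool.Agent.GR
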