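import Pool.Agent.Lib.MP_aa40d3_nt.R2.Weyl

/-! The trace coordinates of a triple. -/

open Polynomial Matrix

namespace Pool.Agent.GR

variable {n : ℕ}

/-- The trace of an invertible matrix. -/
noncomputable def tU (x : GLr 2) : ℂ := x.val.trace

theorem tU_conj (u x : GLr 2) : tU (u * x * u⁻¹) = tU x := by
  unfold tU
  rw [Units.val_mul, trace_mul_comm, Units.val_mul, ← Matrix.mul_assoc, Units.inv_mul, one_mul]

theorem tU_of {x y : GLr 2} (u : GLr 2) (h : y = u * x * u⁻¹) : tU y = tU x := h ▸ tU_conj u x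

theorem tU_isConj {x y : GLr 2} (h : IsConj x y) : tU y = tU x := by
  obtain ⟨u, rfl⟩ := isConj_iff.1 h
  exact tU_conj u x

theorem det_isConj {x y : GLr 2} (h : IsConj x y) : y.val.det = x.val.det := by
  obtain ⟨u, rfl⟩ := isConj_iff.1 h
  rw [Units.val_mul, det_mul_comm, Units.val_mul, ← Matrix.mul_assoc, Units.inv_mul, one_mul]

theorem inv_adj {x : GLr 2} (h : x.val.det = 1) : (x⁻¹).val = x.val.adjugate := by
  rw [← one_mul x.val.adjugate, ← x.inv_mul, Matrix.mul_assoc, mul_adjugate, h, one_smul, mul_one]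

section
variable (s c d : Matrix (Fin 2) (Fin 2) ℂ)

theorem tri_1 : (s * d.adjugate * c * d).trace = d.det * (s.trace * c.trace - (s * c).trace) +
    d.trace * (s * c * d).trace - (s * d).trace * (c * d).trace := by
  simp only [adjugate_fin_two, trace_fin_two, det_fin_two, Matrix.mul_apply, Fin.sum_univ_two,
    of_apply, cons_val', cons_val_zero, cons_val_one, cons_val_fin_one]
  ring

theorem tri_2 : (s * c * s.adjugate * d).trace = s.det * (c.trace * d.trace - (c * d).trace) +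
    s.trace * (s * c * d).trace - (s * c).trace * (s * d).trace := by
  simp only [adjugate_fin_two, trace_fin_two, det_fin_two, Matrix.mul_apply, Fin.sum_univ_two,
    of_apply, cons_val', cons_val_zero, cons_val_one, cons_val_fin_one]
  ring

theorem tri_3 : (s * c * d * c.adjugate).trace = c.det * (s.trace * d.trace - (s * d).trace) +
    c.trace * (s * c * d).trace - (s * c).trace * (c * d).trace := by
  simp only [adjugate_fin_two, trace_fin_two, det_fin_two, Matrix.mul_apply, Fin.sum_univ_two,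
    of_apply, cons_val', cons_val_zero, cons_val_one, cons_val_fin_one]
  ring

theorem tri_0 : (s * c).trace ^ 2 * d.det + (s * d).trace ^ 2 * c.det + (c * d).trace ^ 2 * s.det +
    (s * c).trace * (s * d).trace * (c * d).trace -
      (s.trace * c.trace * d.det + d.trace * (s * c * d).trace) * (s * c).trace -
      (s.trace * d.trace * c.det + c.trace * (s * c * d).trace) * (s * d).trace -
      (c.trace * d.trace * s.det + s.trace * (s * c * d).trace) * (c * d).trace -
      (4 * s.det * c.det * d.det - s.trace ^ 2 * c.det * d.det - c.trace ^ 2 * s.det * d.det -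
        d.trace ^ 2 * s.det * c.det - (s * c * d).trace ^ 2 -
          s.trace * c.trace * d.trace * (s * c * d).trace) = 0 := by
  simp only [trace_fin_two, det_fin_two, Matrix.mul_apply, Fin.sum_univ_two]
  ring

end

section
variable {s c d : GLr 2}

theorem tU_fr (hs : s.val.det = 1) (hc : c.val.det = 1) (hd : d.val.det = 1) :
    fr (tU s) (tU c) (tU d) (tU (s * c * d)) (tU (s * c)) (tU (s * d)) (tU (c * d)) = 0 := by
  have := tri_0 s.val c.val d.val
  rw [hs, hc, hd] at this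
  simp only [fr, tU, Units.val_mul]
  linear_combination this

theorem tU_z (hs : s.val.det = 1) : tU (s * c * s⁻¹ * d) =
    tU c * tU d + tU s * tU (s * c * d) - tU (s * c) * tU (s * d) - tU (c * d) := by
  have := tri_2 s.val c.val d.val
  rw [hs] at this
  simp only [tU, Units.val_mul, inv_adj hs]
  linear_combination this

theorem tU_x (hd : d.val.det = 1) : tU (s * d⁻¹ * c * d) =
    tU s * tU c + tU d * tU (s * c * d) - tU (s * d) * tU (c * d) - tU (s * c) := by
  have := tri_1 s.val c.val d.val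
  rw [hd] at this
  simp only [tU, Units.val_mul, inv_adj hd]
  linear_combination this

theorem tU_y (hc : c.val.det = 1) : tU (s * c * d * c⁻¹) =
    tU s * tU d + tU c * tU (s * c * d) - tU (s * c) * tU (c * d) - tU (s * d) := by
  have := tri_3 s.val c.val d.val
  rw [hc] at this
  simp only [tU, Units.val_mul, inv_adj hc]
  linear_combination this

end

section
variable {G : Type} [Group G] {ρ : Fin n → ℝ} {o i j : Fin n} {z : ℤ} {c : Fin n → G}

theorem Tw_o : Tw ρ o j z c o = c o := by simp [Tw]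

theorem Tw_self : Tw ρ o j z c j = c j := by simp [Tw]

theorem Tw_lt (hi : i ≠ o) (h : ρ i < ρ j) :
    Tw ρ o j z c i = (c j * c o) ^ z * c i * ((c j * c o) ^ z)⁻¹ := by
  have : i ≠ j := fun e => h.ne (congrArg ρ e)
  simp [Tw, hi, this, h]

theorem Tw_gt (hi : i ≠ o) (h : ρ j < ρ i) :
    Tw ρ o j z c i = (c o * c j) ^ z * c i * ((c o * c j) ^ z)⁻¹ := by
  have : i ≠ j := fun e => h.ne' (congrArg ρ e)
  simp [Tw, hi, this, h.not_gt]

end

variable {ρ : Fin n → ℝ} {o : Fin n} {g : Fin n → GLr 2} {ε : Fin n → Fin 2 → ℂ}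
  {𝒞 : Set (Fin n → GLr 2)}

theorem Cl2.det (h : Cl2 ρ o g ε 𝒞) (hd : ∀ i, (g i).val.det = 1) {c : Fin n → GLr 2}
    (hc : c ∈ 𝒞) (i : Fin n) : (c i).val.det = 1 := (det_isConj (h.conj c hc i)).trans (hd i)

theorem Cl2.cy (h : Cl2 ρ o g ε 𝒞) (hd : ∀ i, (g i).val.det = 1) {c : Fin n → GLr 2}
    (hc : c ∈ 𝒞) {i : Fin n} (hi : i ≠ o) : Cy (tU (c o * c i)) :=
  Orr2.cy (by rw [Units.val_mul, det_mul, h.det hd hc, h.det hd hc, one_mul]) (h.orr c hc i hi).2

theorem Cl2.om (h : Cl2 ρ o g ε 𝒞) (hd : ∀ i, (g i).val.det = 1) {c : Fin n → GLr 2}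
    (hc : c ∈ 𝒞) {i j : Fin n} (hi : i ≠ o) (hj : j ≠ o) (hij : ρ i < ρ j) :
    ∃ Ω, Om (tU (c o)) (tU (c i)) (tU (c j)) (tU (c o * c i * c j)) Ω ∧
      (tU (c o * c i), tU (c o * c j), tU (c i * c j)) ∈ Ω ∧
      (tU (c o * c i), tU (c o * c j), tU (c o * c i * (c o)⁻¹ * c j)) ∈ Ω ∧
      ∀ x y z, (x, y, z) ∈ Ω → Cy x ∧ Cy y := by
  have ht : ∀ c' ∈ 𝒞, ∀ k, tU (c' k) = tU (c k) := fun c' hc' k =>
    (tU_isConj (h.conj c' hc' k)).trans (tU_isConj (h.conj c hc k)).symm
  generalize ha : tU (c o) = a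
  generalize hb : tU (c i) = b
  generalize he : tU (c j) = e
  generalize hw : tU (c o * c i * c j) = w
  have hz : ∀ c' ∈ 𝒞, tU (c' o * c' i * c' j) = w → tU (c' o * c' i * (c' o)⁻¹ * c' j) =
      b * e + a * w - tU (c' o * c' i) * tU (c' o * c' j) - tU (c' i * c' j) := by
    intro c' hc' hw'
    rw [tU_z (h.det hd hc' o), hw', ht c' hc', ht c' hc', ht c' hc', ha, hb, he]
  have hx : ∀ c' ∈ 𝒞, tU (c' o * c' i * c' j) = w → tU (c' o * (c' j)⁻¹ * c' i * c' j) =
      a * b + e * w - tU (c' o * c' j) * tU (c' i * c' j) - tU (c' o * c' i) := by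
    intro c' hc' hw'
    rw [tU_x (h.det hd hc' j), hw', ht c' hc', ht c' hc', ht c' hc', ha, hb, he]
  have hy : ∀ c' ∈ 𝒞, tU (c' o * c' i * c' j) = w → tU (c' o * c' i * c' j * (c' i)⁻¹) =
      a * e + b * w - tU (c' o * c' i) * tU (c' i * c' j) - tU (c' o * c' j) := by
    intro c' hc' hw'
    rw [tU_y (h.det hd hc' i), hw', ht c' hc', ht c' hc', ht c' hc', ha, hb, he]
  refine ⟨{P | ∃ c' ∈ 𝒞, tU (c' o * c' i * c' j) = w ∧ P.1 = tU (c' o * c' i) ∧
    P.2.1 = tU (c' o * c' j) ∧ (P.2.2 = tU (c' i * c' j) ∨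
      P.2.2 = tU (c' o * c' i * (c' o)⁻¹ * c' j))}, ⟨?_, ?_, ?_, ?_⟩,
    ⟨c, hc, hw, rfl, rfl, Or.inl rfl⟩, ⟨c, hc, hw, rfl, rfl, Or.inr rfl⟩, ?_⟩ <;>
    rintro x y z ⟨c', hc', hw', h1, h2, h3⟩ <;> dsimp only at h1 h2 h3 <;> subst h1 h2
  · have h4 := tU_fr (h.det hd hc' o) (h.det hd hc' i) (h.det hd hc' j)
    rw [hw', ht c' hc', ht c' hc', ht c' hc', ha, hb, he] at h4
    rcases h3 with rfl | rfl
    · exact h4
    · rw [hz c' hc' hw']
      unfold fr at h4 ⊢
      linear_combination h4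
  · rcases h3 with rfl | rfl
    · refine ⟨_, h.tw c' hc' j hj (-1), ?_, ?_, ?_, Or.inr ?_⟩ <;>
        simp only [Tw_o, Tw_self, Tw_lt hi hij, ← hx c' hc' hw']
      · exact (tU_of ((c' j)⁻¹ * (c' o)⁻¹) (by group)).trans hw'
      · exact tU_of (c' o) (by group)
      · exact tU_of (c' j) (by group)
    · have k1 := h.tw c' hc' j hj 1
      have k2 : tU (Tw ρ o j 1 c' o * Tw ρ o j 1 c' i * Tw ρ o j 1 c' j) = w := by
        simp only [Tw_o, Tw_self, Tw_lt hi hij]
        exact (tU_of (c' o * c' j) (by group)).trans hw'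
      have k3 := hx _ k1 k2
      have k4 : tU (Tw ρ o j 1 c' i * Tw ρ o j 1 c' j) = tU (c' o * c' i * (c' o)⁻¹ * c' j) := by
        simp only [Tw_self, Tw_lt hi hij]
        exact tU_of (c' j) (by group)
      have k5 : tU (Tw ρ o j 1 c' o * (Tw ρ o j 1 c' j)⁻¹ * Tw ρ o j 1 c' i * Tw ρ o j 1 c' j) =
          tU (c' o * c' i) := by
        simp only [Tw_o, Tw_self, Tw_lt hi hij]
        exact tU_of (c' o) (by group)
      refine ⟨_, k1, k2, ?_, by simp only [Tw_o, Tw_self], Or.inl k4.symm⟩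
      rw [k4, k5, Tw_o, Tw_self] at k3
      rw [Tw_o]
      linear_combination -k3
  · rcases h3 with rfl | rfl
    · refine ⟨_, h.tw c' hc' i hi 1, ?_, ?_, ?_, Or.inr ?_⟩ <;>
        simp only [Tw_o, Tw_self, Tw_gt hj hij, ← hy c' hc' hw']
      · exact (tU_of (c' o * c' i) (by group)).trans hw'
      · exact tU_of (c' o)⁻¹ (by group)
      · exact tU_of ((c' i)⁻¹ * (c' o)⁻¹) (by group)
    · have k1 := h.tw c' hc' i hi (-1)
      have k2 : tU (Tw ρ o i (-1) c' o * Tw ρ o i (-1) c' i * Tw ρ o i (-1) c' j) = w := by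
        simp only [Tw_o, Tw_self, Tw_gt hj hij]
        exact (tU_of (c' o * c' i)⁻¹ (by group)).trans hw'
      have k3 := hy _ k1 k2
      have k4 : tU (Tw ρ o i (-1) c' i * Tw ρ o i (-1) c' j) =
          tU (c' o * c' i * (c' o)⁻¹ * c' j) := by
        simp only [Tw_self, Tw_gt hj hij]
        exact tU_of ((c' i)⁻¹ * (c' o)⁻¹) (by group)
      have k5 : tU (Tw ρ o i (-1) c' o * Tw ρ o i (-1) c' i * Tw ρ o i (-1) c' j *
          (Tw ρ o i (-1) c' i)⁻¹) = tU (c' o * c' j) := by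
        simp only [Tw_o, Tw_self, Tw_gt hj hij]
        exact tU_of (c' o)⁻¹ (by group)
      refine ⟨_, k1, k2, by simp only [Tw_o, Tw_self], ?_, Or.inl k4.symm⟩
      rw [k4, k5, Tw_o, Tw_self] at k3
      rw [Tw_o]
      linear_combination -k3
  · refine ⟨c', hc', hw', rfl, rfl, ?_⟩
    rcases h3 with rfl | rfl
    · exact Or.inr (hz c' hc' hw').symm
    · refine Or.inl ?_
      rw [hz c' hc' hw']
      ring
  · exact ⟨h.cy hd hc' hi, h.cy hd hc' hj⟩

end Pool.Agent.GR
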