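import Pool.Agent.Lib.MP_aa40d3_nt.R2.Tri

/-! Unitarity from real traces. -/

open Polynomial Matrix ComplexConjugate

namespace Pool.Agent.GR

variable {n : ℕ}

theorem unit_conj {ζ α β : ℂ} (hn : ‖ζ‖ = 1) (hζ : ζ ≠ ζ⁻¹) (h1 : (α + β).im = 0)
    (h2 : (ζ * α + ζ⁻¹ * β).im = 0) : β = conj α := by
  rw [Complex.inv_eq_conj hn] at hζ h2
  have h3 : ζ.im ≠ 0 := fun h => hζ (Complex.conj_eq_iff_im.2 h).symm
  simp only [Complex.add_im, Complex.mul_im, Complex.conj_re, Complex.conj_im] at h1 h2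
  have h4 : β.im = -α.im := by linarith
  have h5 : ζ.im * (α.re - β.re) = 0 := by
    rw [h4] at h2
    linarith
  have h6 := (mul_eq_zero.1 h5).resolve_left h3
  exact Complex.ext (by simp only [Complex.conj_re]; linarith) (by simp only [Complex.conj_im, h4])

theorem tU_diag {s : GLr 2} {ζ : ℂ} (hs : s.val = !![ζ, 0; 0, ζ⁻¹]) (x : GLr 2) :
    tU (s * x) = ζ * x.val 0 0 + ζ⁻¹ * x.val 1 1 := by
  simp [tU, hs, trace_fin_two, vecMul, dotProduct, Fin.sum_univ_two]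

theorem tU_eq (x : GLr 2) : tU x = x.val 0 0 + x.val 1 1 := trace_fin_two _

theorem unit_diag {s x : GLr 2} {ζ : ℂ} (hn : ‖ζ‖ = 1) (hζ : ζ ≠ ζ⁻¹)
    (hs : s.val = !![ζ, 0; 0, ζ⁻¹]) (h1 : (tU x).im = 0) (h2 : (tU (s * x)).im = 0) :
    x.val 1 1 = conj (x.val 0 0) :=
  unit_conj hn hζ (tU_eq x ▸ h1) (tU_diag hs x ▸ h2)

theorem unit_pair {x y : GLr 2} (hx : x.val 1 1 = conj (x.val 0 0))
    (hy : y.val 1 1 = conj (y.val 0 0)) (h : (x * y).val 1 1 = conj ((x * y).val 0 0)) :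
    x.val 1 0 * y.val 0 1 = conj (x.val 0 1) * conj (y.val 1 0) := by
  simp only [Units.val_mul, Matrix.mul_apply, Fin.sum_univ_two, map_add, map_mul, hx, hy] at h
  linear_combination h

/-- The special unitary group of the form `diag (δ, 1)`. -/
noncomputable def suD (δ : ℝ) : Subgroup (GLr 2) where
  carrier := {x | x.val.det = 1 ∧ x.val 1 1 = conj (x.val 0 0) ∧ x.val 1 0 = -δ * conj (x.val 0 1)}
  one_mem' := by simp
  mul_mem' := by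
    rintro x y ⟨a1, a2, a3⟩ ⟨b1, b2, b3⟩
    refine ⟨by rw [Units.val_mul, det_mul, a1, b1, one_mul], ?_, ?_⟩ <;>
      simp only [Units.val_mul, Matrix.mul_apply, Fin.sum_univ_two, map_add, map_mul, a2, a3, b2,
        b3, map_neg, Complex.conj_ofReal, Complex.conj_conj] <;> ring
  inv_mem' := by
    rintro x ⟨a1, a2, a3⟩
    have e := inv_adj a1
    refine ⟨by rw [e, det_adjugate, a1, one_pow], ?_, ?_⟩ <;>
      simp [e, adjugate_fin_two, a2, a3]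

theorem suD_trace {δ : ℝ} (hδ : 0 ≤ δ) {x : GLr 2} (h : x ∈ suD δ) : ‖tU x‖ ≤ 2 := by
  obtain ⟨a1, a2, a3⟩ := h
  rw [det_fin_two, a2, a3] at a1
  have h1 : (‖x.val 0 0‖ ^ 2 + δ * ‖x.val 0 1‖ ^ 2 : ℝ) = (1 : ℂ) := by
    push_cast
    rw [← Complex.mul_conj', ← Complex.mul_conj']
    linear_combination a1
  have h2 : ‖x.val 0 0‖ ^ 2 + δ * ‖x.val 0 1‖ ^ 2 = 1 := by exact_mod_cast h1
  have h3 : ‖x.val 0 0‖ ≤ 1 := by
    have := mul_nonneg hδ (sq_nonneg ‖x.val 0 1‖)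
    nlinarith [norm_nonneg (x.val 0 0)]
  rw [tU_eq, a2]
  refine (norm_add_le _ _).trans ?_
  rw [Complex.norm_conj]
  linarith

theorem kp_diag {s x : GLr 2} {ζ : ℂ} (h0 : ζ ≠ 0) (hs : s.val = !![ζ, 0; 0, ζ⁻¹])
    (hd : x.val.det = 1) :
    kp (tU s) (tU x) (tU (s * x)) = -(ζ - ζ⁻¹) ^ 2 * (x.val 0 1 * x.val 1 0) := by
  have h1 : tU s = ζ + ζ⁻¹ := by simp [tU, hs]
  have h2 := mul_inv_cancel₀ h0
  rw [det_fin_two] at hd
  rw [h1, tU_diag hs, tU_eq, kp]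
  generalize ζ⁻¹ = ξ at h2 ⊢
  linear_combination (-(ζ - ξ) ^ 2) * hd +
    (4 - (x.val 0 0) ^ 2 - (x.val 1 1) ^ 2 - 2 * x.val 0 0 * x.val 1 1 + (x.val 0 0) ^ 2 +
      (x.val 1 1) ^ 2 + 2 * x.val 0 0 * x.val 1 1 - (x.val 0 0 + x.val 1 1) ^ 2) * h2

theorem bdd_trace {m : Fin n → GLr 2} {o k : Fin n} {ζ : ℂ} (hn : ‖ζ‖ = 1) (hζ : ζ ≠ ζ⁻¹)
    (ho : (m o).val = !![ζ, 0; 0, ζ⁻¹]) (hd : ∀ i, (m i).val.det = 1)
    (h1 : ∀ i, i ≠ o → (tU (m i)).im = 0 ∧ (tU (m o * m i)).im = 0)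
    (h2 : ∀ i, i ≠ o → i ≠ k → ((tU (m i * m k)).im = 0 ∧ (tU (m o * (m i * m k))).im = 0) ∨
      ((tU (m k * m i)).im = 0 ∧ (tU (m o * (m k * m i))).im = 0))
    (hk : (m k).val 0 1 ≠ 0 ∨ (m k).val 1 0 ≠ 0) (hq : ∃ l, (m l).val 0 1 ≠ 0)
    (hr : ∃ l, (m l).val 1 0 ≠ 0)
    (hw : ∃ l : ℝ, 0 ≤ l ∧ kp (tU (m o)) (tU (m k)) (tU (m o * m k)) = -(l : ℂ)) :
    ∀ γ ∈ Subgroup.closure (Set.range m), ‖tU γ‖ ≤ 2 := by
  have h0 : ζ ≠ 0 := fun h => by simp [h] at hn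
  have d1 : ∀ i, (m i).val 1 1 = conj ((m i).val 0 0) := fun i => by
    by_cases hi : i = o
    · simp [hi, ho, Complex.inv_eq_conj hn]
    · exact unit_diag hn hζ ho (h1 i hi).1 (h1 i hi).2
  have d2 : ∀ i, i ≠ k →
      (m i).val 1 0 * (m k).val 0 1 = conj ((m i).val 0 1) * conj ((m k).val 1 0) := by
    intro i hik
    by_cases hi : i = o
    · simp [hi, ho]
    rcases h2 i hi hik with h | h
    · exact unit_pair (d1 i) (d1 k) (unit_diag hn hζ ho h.1 h.2)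
    · have := congrArg conj (unit_pair (d1 k) (d1 i) (unit_diag hn hζ ho h.1 h.2))
      simp only [map_mul, Complex.conj_conj] at this
      linear_combination -this
  have q0 : (m k).val 0 1 ≠ 0 := by
    intro h
    obtain ⟨l, hl⟩ := hq
    have h3 := d2 l fun e => hl (e ▸ h)
    rw [h, mul_zero, eq_comm, mul_eq_zero, map_eq_zero, map_eq_zero] at h3
    exact h3.elim hl (hk.resolve_left (not_not.2 h))
  have r0 : (m k).val 1 0 ≠ 0 := by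
    intro h
    obtain ⟨l, hl⟩ := hr
    have h3 := d2 l fun e => hl (e ▸ h)
    rw [h, map_zero, mul_zero, mul_eq_zero] at h3
    exact h3.elim hl q0
  obtain ⟨l, hl, hw⟩ := hw
  rw [kp_diag h0 ho (hd k)] at hw
  have e1 : -(ζ - ζ⁻¹) ^ 2 = ((4 * ζ.im ^ 2 : ℝ) : ℂ) := by
    rw [Complex.inv_eq_conj hn, Complex.sub_conj]
    push_cast
    linear_combination (-4 * (ζ.im : ℂ) ^ 2) * Complex.I_sq
  have e2 : ζ.im ≠ 0 := fun h => hζ (by
    rw [Complex.inv_eq_conj hn]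
    exact (Complex.conj_eq_iff_im.2 h).symm)
  have e3 : ‖(m k).val 0 1‖ ≠ 0 := norm_ne_zero_iff.2 q0
  set δ : ℝ := l / (4 * ζ.im ^ 2 * ‖(m k).val 0 1‖ ^ 2) with hδ
  have d3 : (m k).val 1 0 = -δ * conj ((m k).val 0 1) := by
    have e4 : ((4 * ζ.im ^ 2 : ℝ) : ℂ) * (m k).val 0 1 ≠ 0 :=
      mul_ne_zero (Complex.ofReal_ne_zero.2 (by positivity)) q0
    refine mul_left_cancel₀ e4 ?_
    have e5 : (l : ℂ) = δ * ((4 * ζ.im ^ 2 : ℝ) * ((m k).val 0 1 * conj ((m k).val 0 1))) := by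
      rw [Complex.mul_conj']
      norm_cast
      rw [hδ]
      field_simp
    rw [e1, e5] at hw
    linear_combination hw
  intro γ hγ
  refine suD_trace (δ := δ) (by positivity) ((Subgroup.closure_le _).2 ?_ hγ)
  rintro _ ⟨i, rfl⟩
  refine ⟨hd i, d1 i, ?_⟩
  by_cases hik : i = k
  · exact hik ▸ d3
  have h3 := d2 i hik
  rw [d3, map_mul, map_neg, Complex.conj_ofReal, Complex.conj_conj] at h3
  exact mul_right_cancel₀ q0 (by linear_combination h3)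

end Pool.Agent.GR
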