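import Pool.Agent.Lib.MP_aa40d3_nt.R2.Defs

/-! The exponent inequalities for a pair in rank two. -/

open Polynomial Matrix

namespace Pool.Agent.GR

variable {n : ℕ}

theorem weyl_core {u v p q : ℂ} (nu : ‖u‖ = 1) (nv : ‖v‖ = 1) (np : ‖p‖ = 1) (nq : ‖q‖ = 1)
    (hp : p ≠ 1) (h1 : a01 u + a01 v ≤ a01 p + a01 q)
    (h2 : a01 u⁻¹ + a01 v⁻¹ ≤ a01 p⁻¹ + a01 q⁻¹) :
    ∃ l : ℝ, 0 ≤ l ∧ (1 - u) * (1 - v) = l * ((1 - p) * (1 - q)) := by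
  by_cases hu : u = 1
  · exact ⟨0, le_rfl, by simp [hu]⟩
  by_cases hv : v = 1
  · exact ⟨0, le_rfl, by simp [hv]⟩
  rw [a01_inv nu hu, a01_inv nv hv, a01_inv np hp] at h2
  have hq : q ≠ 1 := by
    rintro rfl
    rw [inv_one, a01_one] at h2
    rw [a01_one] at h1
    linarith
  rw [a01_inv nq hq] at h2
  have h3 : a01 u + a01 v = a01 p + a01 q := by linarith
  have h4 : Complex.exp (Real.pi * Complex.I * a01 u) * Complex.exp (Real.pi * Complex.I * a01 v) =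
      Complex.exp (Real.pi * Complex.I * a01 p) * Complex.exp (Real.pi * Complex.I * a01 q) := by
    rw [← Complex.exp_add, ← Complex.exp_add, ← mul_add, ← mul_add, ← Complex.ofReal_add,
      ← Complex.ofReal_add, h3]
  have su := psda_sin_pos nu hu
  have sv := psda_sin_pos nv hv
  have sp := psda_sin_pos np hp
  have sq := psda_sin_pos nq hq
  rw [one_sub_eq nu, one_sub_eq nv, one_sub_eq np, one_sub_eq nq]
  generalize Real.sin (Real.pi * a01 u) = a at *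
  generalize Real.sin (Real.pi * a01 v) = b at *
  generalize Real.sin (Real.pi * a01 p) = c at *
  generalize Real.sin (Real.pi * a01 q) = d at *
  refine ⟨a * b / (c * d), by positivity, ?_⟩
  have h5 : ((a * b / (c * d) : ℝ) : ℂ) * (c * d) = a * b := by
    exact_mod_cast div_mul_cancel₀ (a * b) (mul_pos sp sq).ne'
  linear_combination (4 * Complex.I ^ 2 * a * b) * h4 - 4 * Complex.I ^ 2 *
    (Complex.exp (Real.pi * Complex.I * a01 p) * Complex.exp (Real.pi * Complex.I * a01 q)) * h5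

theorem weyl_sq {a b : ℂ} (na : ‖a‖ = 1) (h : a * b = 1) :
    ∃ s : ℝ, 0 ≤ s ∧ (a - b) ^ 2 = -(s : ℂ) := by
  refine ⟨(2 * a.im) ^ 2, sq_nonneg _, ?_⟩
  rw [eq_inv_of_mul_eq_one_right h, Complex.inv_eq_conj na, Complex.sub_conj, mul_pow,
    Complex.I_sq]
  push_cast
  ring

theorem weyl_char {x : Matrix (Fin 2) (Fin 2) ℂ} {ω : Fin 2 → ℂ}
    (h : x.charpoly = ∏ j, (X - C (ω j))) : x.det = ω 0 * ω 1 ∧ x.trace = ω 0 + ω 1 := by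
  rw [Matrix.charpoly_fin_two, Fin.prod_univ_two] at h
  have h0 := congrArg (eval 0) h
  have h1 := congrArg (eval 1) h
  simp only [eval_add, eval_sub, eval_mul, eval_pow, eval_X, eval_C] at h0 h1
  exact ⟨by linear_combination h0, by linear_combination h0 - h1⟩

/-- If `ω j = σ0 * γ0` for some `j` take `l = 0` (the left side is then zero because
`(σ0 γ0 - ω0) (σ0 γ0 - ω1) = -σ0 γ0 (ω0 + ω1 - σ0 γ0 - σ1 γ1)`). Otherwise `a01_inv` turns the two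
inequalities into `a01 (ω0 / (σ0 γ0)) + a01 (ω1 / (σ0 γ0)) = a01 (σ1 / σ0) + a01 (γ1 / γ0)` with
`γ1 ≠ γ0`; use `geig_kap_prod`, `geig_pos` (or `one_sub_eq`) as at the end of `eig_sign`. -/
theorem weyl_scalar {σ0 σ1 γ0 γ1 ω0 ω1 : ℂ} (n1 : ‖σ0‖ = 1) (n2 : ‖σ1‖ = 1) (n3 : ‖γ0‖ = 1)
    (n4 : ‖γ1‖ = 1) (n5 : ‖ω0‖ = 1) (n6 : ‖ω1‖ = 1) (hσ : σ0 ≠ σ1)
    (hd : ω0 * ω1 = σ0 * σ1 * (γ0 * γ1))
    (h1 : a01 (ω0 / (σ0 * γ0)) + a01 (ω1 / (σ0 * γ0)) ≤ a01 (σ1 / σ0) + a01 (γ1 / γ0))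
    (h2 : a01 (ω0 / (σ0 * γ0))⁻¹ + a01 (ω1 / (σ0 * γ0))⁻¹ ≤ a01 (σ1 / σ0)⁻¹ + a01 (γ1 / γ0)⁻¹) :
    ∃ l : ℝ, 0 ≤ l ∧ ω0 + ω1 - σ0 * γ0 - σ1 * γ1 = -(l : ℂ) * ((σ0 - σ1) * (γ0 - γ1)) := by
  have z1 : σ0 ≠ 0 := norm_ne_zero_iff.1 (by rw [n1]; exact one_ne_zero)
  have z3 : γ0 ≠ 0 := norm_ne_zero_iff.1 (by rw [n3]; exact one_ne_zero)
  obtain ⟨l, hl, he⟩ := weyl_core (by rw [norm_div, norm_mul, n5, n1, n3]; simp)
    (by rw [norm_div, norm_mul, n6, n1, n3]; simp) (by rw [norm_div, n2, n1]; simp)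
    (by rw [norm_div, n4, n3]; simp) (fun h => hσ (eq_of_div_eq_one h).symm) h1 h2
  refine ⟨l, hl, ?_⟩
  have e1 : (1 - ω0 / (σ0 * γ0)) * (1 - ω1 / (σ0 * γ0)) * (σ0 * γ0) ^ 2 =
      (σ0 * γ0 - ω0) * (σ0 * γ0 - ω1) := by field_simp
  have e2 : (1 - σ1 / σ0) * (1 - γ1 / γ0) * (σ0 * γ0) = (σ0 - σ1) * (γ0 - γ1) := by field_simp
  refine mul_left_cancel₀ (mul_ne_zero z1 z3) ?_
  linear_combination e1 - (σ0 * γ0) ^ 2 * he - (l : ℂ) * (σ0 * γ0) * e2 + hd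

/-- Apply `weyl_scalar` twice (second time with `γ0`, `γ1` exchanged) to the images under `τ`;
the inequalities are `Orr2` for `τ` and for `conj ∘ τ` with `η o = (ε o 0)⁻¹`, `η j = (ε j k)⁻¹`,
`η i = 1` otherwise. With `σ0 σ1 = γ0 γ1 = 1`,
`kp a b x = (x - σ0 γ0 - σ1 γ1) (x - σ0 γ1 - σ1 γ0) = -l l' (a² - 4) (b² - 4)`. -/
theorem weyl2 {ε : Fin n → Fin 2 → ℂ} {o j : Fin n} (hoj : j ≠ o)
    (hε : ∀ i k, IsOfFinOrder (ε i k)) (hne : ε o 0 ≠ ε o 1) (h1 : ε o 0 * ε o 1 = 1)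
    (h2 : ε j 0 * ε j 1 = 1) {x : Matrix (Fin 2) (Fin 2) ℂ} (hx : x.det = 1)
    (h : Orr2 2 ε {o, j} x.charpoly) (τ : ℂ →+* ℂ) :
    ∃ l : ℝ, 0 ≤ l ∧ τ (kp (ε o 0 + ε o 1) (ε j 0 + ε j 1) x.trace) = -(l : ℂ) := by
  obtain ⟨ω, hω, hq, hin⟩ := h
  obtain ⟨hd, ht⟩ := weyl_char hq
  have hn : ∀ {z : ℂ}, IsOfFinOrder z → ∀ τ : ℂ →+* ℂ, ‖τ z‖ = 1 := fun hz τ =>
    (τ.toMonoidHom.isOfFinOrder hz).norm_eq_one
  have h0 : ∀ {z : ℂ}, IsOfFinOrder z → τ z ≠ 0 := fun hz =>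
    norm_ne_zero_iff.1 (by rw [hn hz]; exact one_ne_zero)
  have hc : ∀ {z : ℂ}, IsOfFinOrder z → (starRingEnd ℂ).comp τ z = (τ z)⁻¹ := fun hz =>
    (Complex.inv_eq_conj (hn hz τ)).symm
  have key : ∀ (τ : ℂ →+* ℂ) (k : Fin 2),
      a01 (τ (ω 0) / (τ (ε o 0) * τ (ε j k))) + a01 (τ (ω 1) / (τ (ε o 0) * τ (ε j k))) ≤
        a01 (τ (ε o 0) / τ (ε o 0)) + a01 (τ (ε o 1) / τ (ε o 0)) +
          (a01 (τ (ε j 0) / τ (ε j k)) + a01 (τ (ε j 1) / τ (ε j k))) := by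
    intro τ k
    have h3 := hin τ (fun i => if i = o then (ε o 0)⁻¹ else (ε i k)⁻¹) fun i => by
      by_cases hi : i = o
      · rw [if_pos hi]; exact finOrd_inv (hε _ _)
      · rw [if_neg hi]; exact finOrd_inv (hε _ _)
    rw [Finset.prod_pair hoj.symm, Finset.sum_pair hoj.symm] at h3
    simpa only [Fin.sum_univ_two, if_true, if_neg hoj, map_mul, map_inv₀, div_eq_mul_inv, mul_inv]
      using h3
  have e1 : ∀ a b c : ℂ, a⁻¹ / (b⁻¹ * c⁻¹) = (a / (b * c))⁻¹ := fun a b c => by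
    rw [← mul_inv, inv_div_inv, inv_div]
  have e2 : ∀ a b : ℂ, a⁻¹ / b⁻¹ = (a / b)⁻¹ := fun a b => by rw [inv_div_inv, inv_div]
  have k1 := key τ 0
  have k2 := key ((starRingEnd ℂ).comp τ) 0
  have k3 := key τ 1
  have k4 := key ((starRingEnd ℂ).comp τ) 1
  simp only [hc (hω _), hc (hε _ _), e1, e2] at k2 k4
  simp only [div_self (h0 (hε _ _)), inv_one, a01_one, zero_add, add_zero] at k1 k2 k3 k4
  have p1 : τ (ε o 0) * τ (ε o 1) = 1 := by rw [← map_mul, h1, map_one]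
  have p2 : τ (ε j 0) * τ (ε j 1) = 1 := by rw [← map_mul, h2, map_one]
  have p3 : τ (ω 0) * τ (ω 1) = 1 := by rw [← map_mul, ← hd, hx, map_one]
  have hσ : τ (ε o 0) ≠ τ (ε o 1) := fun h => hne (τ.injective h)
  obtain ⟨l, hl, el⟩ := weyl_scalar (hn (hε o 0) τ) (hn (hε o 1) τ) (hn (hε j 0) τ)
    (hn (hε j 1) τ) (hn (hω 0) τ) (hn (hω 1) τ) hσ (by rw [p1, p2, p3, mul_one]) k1 k2
  obtain ⟨m, hm, em⟩ := weyl_scalar (hn (hε o 0) τ) (hn (hε o 1) τ) (hn (hε j 1) τ)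
    (hn (hε j 0) τ) (hn (hω 0) τ) (hn (hω 1) τ) hσ
    (by rw [p1, mul_comm (τ (ε j 1)), p2, p3, mul_one]) k3 k4
  obtain ⟨s, hs, es⟩ := weyl_sq (hn (hε o 0) τ) p1
  obtain ⟨t, ht', et⟩ := weyl_sq (hn (hε j 0) τ) p2
  refine ⟨l * m * s * t, by positivity, ?_⟩
  have e3 : τ (kp (ε o 0 + ε o 1) (ε j 0 + ε j 1) x.trace) =
      (τ (ω 0) + τ (ω 1) - τ (ε o 0) * τ (ε j 0) - τ (ε o 1) * τ (ε j 1)) *
        (τ (ω 0) + τ (ω 1) - τ (ε o 0) * τ (ε j 1) - τ (ε o 1) * τ (ε j 0)) := by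
    simp only [kp, ht, map_sub, map_add, map_mul, map_pow, map_ofNat]
    linear_combination (2 - τ (ε j 0) ^ 2 - τ (ε j 1) ^ 2) * p1 +
      (2 - τ (ε o 0) ^ 2 - τ (ε o 1) ^ 2) * p2
  rw [e3, el, em]
  push_cast
  linear_combination (-(l : ℂ) * m * (τ (ε j 0) - τ (ε j 1)) ^ 2) * es + (l : ℂ) * m * s * et

/-- The trace of a loop of determinant one. -/
theorem Orr2.cy {ε : Fin n → Fin 2 → ℂ} {I : Finset (Fin n)} {x : Matrix (Fin 2) (Fin 2) ℂ}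
    (hx : x.det = 1) (h : Orr2 2 ε I x.charpoly) : Cy x.trace := by
  obtain ⟨ω, hω, hq, -⟩ := h
  obtain ⟨hd, ht⟩ := weyl_char hq
  exact ⟨ω 0, hω 0, by rw [ht, eq_inv_of_mul_eq_one_right (hd.symm.trans hx)]⟩

end Pool.Agent.GR
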